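import Mathlib

section

/-! Perfect matching numbers and their Stirling-type bounds. -/

namespace Pool.Agent.MP_c4b7b1_co

open Real Finset

/-- number of perfect matchings on `m` points -/
def pm : ℕ → ℕ
  | 0 => 1
  | 1 => 0
  | (m + 2) => (m + 1) * pm m

/-- `(m / e) ^ (m / 2)` -/
noncomputable def lap (m : ℕ) : ℝ := (√(m : ℝ)) ^ m * exp (-(m : ℝ) / 2)

lemma lap_pos (m : ℕ) : 0 < lap m := by
  unfold lap
  rcases Nat.eq_zero_or_pos m with rfl | h
  · simp
  · have : (0 : ℝ) < m := by exact_mod_cast h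
    positivity

lemma pm_odd (k : ℕ) : pm (2 * k + 1) = 0 := by
  induction k with
  | zero => rfl
  | succ k ih =>
    have : 2 * (k + 1) + 1 = (2 * k + 1) + 2 := by ring
    rw [this, pm, ih]; simp

lemma pm_even (k : ℕ) : pm (2 * k) * (2 ^ k * k.factorial) = (2 * k).factorial := by
  induction k with
  | zero => rfl
  | succ k ih =>
    have h : 2 * (k + 1) = (2 * k) + 2 := by ring
    rw [h, pm, Nat.factorial_succ (2 * k + 1), Nat.factorial_succ (2 * k), ← ih,
      Nat.factorial_succ k]
    ring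

lemma pm_pred (m : ℕ) (hm : 1 ≤ m) : (m - 1) * pm (m - 2) = pm m := by
  match m, hm with
  | 1, _ => simp [pm]
  | (m + 2), _ => simp [pm]

lemma lap_even (k : ℕ) : lap (2 * k) = (2 * (k : ℝ) / exp 1) ^ k := by
  unfold lap
  rw [pow_mul, sq_sqrt (by positivity), div_pow, ← exp_nat_mul]
  push_cast
  rw [show -(2 * (k : ℝ)) / 2 = -((k : ℝ) * 1) by ring, exp_neg]
  rfl

lemma fact_eq (n : ℕ) (hn : n ≠ 0) :
    (n.factorial : ℝ) = Stirling.stirlingSeq n * (√(2 * n) * (n / exp 1) ^ n) := by
  unfold Stirling.stirlingSeq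
  have : (0 : ℝ) < n := by exact_mod_cast Nat.pos_of_ne_zero hn
  field_simp

lemma stir_le (n : ℕ) (hn : n ≠ 0) : Stirling.stirlingSeq n ≤ 2 := by
  obtain ⟨k, rfl⟩ := Nat.exists_eq_succ_of_ne_zero hn
  have h := Stirling.stirlingSeq'_antitone (Nat.zero_le k)
  simp only [Function.comp, Nat.succ_eq_add_one, zero_add, Stirling.stirlingSeq_one] at h
  refine h.trans ?_
  rw [div_le_iff₀ (by positivity)]
  have h1 : exp 1 < 2.7182818286 := Real.exp_one_lt_d9
  have h2 : (1.4 : ℝ) ≤ √2 := by
    apply Real.le_sqrt_of_sq_le; norm_num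
  linarith

lemma le_stir (n : ℕ) (hn : n ≠ 0) : 1 ≤ Stirling.stirlingSeq n := by
  refine le_trans ?_ (Stirling.sqrt_pi_le_stirlingSeq hn)
  apply Real.le_sqrt_of_sq_le
  have := Real.pi_gt_three
  linarith

lemma pm_even_eq (k : ℕ) (hk : k ≠ 0) :
    (pm (2 * k) : ℝ) * Stirling.stirlingSeq k =
      Stirling.stirlingSeq (2 * k) * √2 * lap (2 * k) := by
  have h1 : (pm (2 * k) : ℝ) * (2 ^ k * k.factorial) = (2 * k).factorial := by
    exact_mod_cast pm_even k
  rw [fact_eq k hk, fact_eq (2 * k) (by omega)] at h1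
  have hk' : (0 : ℝ) < k := by exact_mod_cast Nat.pos_of_ne_zero hk
  rw [lap_even]
  push_cast at h1
  have e1 : √(2 * (2 * (k : ℝ))) = √2 * √(2 * k) := by
    rw [← sqrt_mul (by norm_num)]
  have e2 : (2 * (k : ℝ) / exp 1) ^ (2 * k) = (2 * (k : ℝ) / exp 1) ^ k * (2 ^ k * (k / exp 1) ^ k) := by
    rw [← mul_pow, two_mul k, pow_add]; congr 2; ring
  rw [e1, e2] at h1
  have hpos : (0 : ℝ) < 2 ^ k * (√(2 * k) * (k / exp 1) ^ k) := by positivity
  apply mul_right_cancel₀ hpos.ne'
  linarith [h1]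

lemma pm_le_lap (m : ℕ) : (pm m : ℝ) ≤ 3 * lap m := by
  rcases Nat.even_or_odd' m with ⟨k, rfl | rfl⟩
  · rcases Nat.eq_zero_or_pos k with rfl | hk
    · simp [pm, lap]
    · have h := pm_even_eq k hk.ne'
      have h1 := le_stir k hk.ne'
      have h2 := stir_le (2 * k) (by omega)
      have h3 : √2 ≤ (1.5 : ℝ) := by
        apply Real.sqrt_le_iff.mpr; norm_num
      have h4 := lap_pos (2 * k)
      have h5 : (0 : ℝ) ≤ pm (2 * k) := by positivity
      have h6 : Stirling.stirlingSeq (2 * k) * √2 ≤ 3 := by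
        have : 0 ≤ √2 := sqrt_nonneg 2
        nlinarith
      nlinarith
  · rw [pm_odd]; have := lap_pos (2 * k + 1); simp; linarith

lemma lap_le_pm (k : ℕ) : lap (2 * k) ≤ 2 * (pm (2 * k) : ℝ) := by
  rcases Nat.eq_zero_or_pos k with rfl | hk
  · simp [pm, lap]
  · have h := pm_even_eq k hk.ne'
    have h1 := le_stir (2 * k) (by omega)
    have h2 := stir_le k hk.ne'
    have h3 : (1 : ℝ) ≤ √2 := by
      apply Real.le_sqrt_of_sq_le; norm_num
    have h4 := lap_pos (2 * k)
    have h5 : (0 : ℝ) ≤ pm (2 * k) := by positivity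
    have h6 : 1 ≤ Stirling.stirlingSeq (2 * k) * √2 := by nlinarith
    nlinarith

/-- `lap m` is the maximum of `t ^ m * exp (-t^2/2)`. -/
lemma pow_exp_le_lap (m : ℕ) (t : ℝ) (ht : 0 ≤ t) : t ^ m * exp (-t ^ 2 / 2) ≤ lap m := by
  rcases Nat.eq_zero_or_pos m with rfl | hm
  · simp only [lap, pow_zero, one_mul, Nat.cast_zero, neg_zero, zero_div, exp_zero]
    apply exp_le_one_iff.mpr
    nlinarith [sq_nonneg t]
  · have hm' : (0 : ℝ) < m := by exact_mod_cast hm
    set s := √(m : ℝ) with hs
    have hspos : 0 < s := sqrt_pos.mpr hm'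
    have hss : s ^ 2 = m := sq_sqrt hm'.le
    unfold lap
    rw [← hs]
    have h1 : t / s ≤ exp (t / s - 1) := by
      have := add_one_le_exp (t / s - 1); linarith
    have h2 : (t / s) ^ m ≤ exp (m * (t / s - 1)) := by
      rw [exp_nat_mul]; exact pow_le_pow_left₀ (by positivity) h1 m
    have h3 : t ^ m = s ^ m * (t / s) ^ m := by
      rw [← mul_pow]; congr 1; field_simp
    rw [h3, mul_assoc]
    apply mul_le_mul_of_nonneg_left _ (by positivity)
    calc (t / s) ^ m * exp (-t ^ 2 / 2) ≤ exp (m * (t / s - 1)) * exp (-t ^ 2 / 2) := by gcongr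
      _ = exp (m * (t / s - 1) + -t ^ 2 / 2) := by rw [exp_add]
      _ ≤ exp (-(m : ℝ) / 2) := by
        apply exp_le_exp.mpr
        have : (m : ℝ) * (t / s) = s * t := by rw [← hss]; field_simp
        nlinarith [sq_nonneg (t - s)]

/-- `lap m` is comparable with the value at the nearest integer above `√m`. -/
lemma lap_le_grid (m : ℕ) :
    lap m ≤ exp 2 * ((⌈√(m : ℝ)⌉₊ : ℝ) ^ m * exp (-(⌈√(m : ℝ)⌉₊ : ℝ) ^ 2 / 2)) := by
  rcases Nat.eq_zero_or_pos m with rfl | hm
  · simp [lap]
  · have hm' : (0 : ℝ) < m := by exact_mod_cast hm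
    set s := √(m : ℝ) with hs
    have hspos : 0 < s := sqrt_pos.mpr hm'
    have hss : s ^ 2 = m := sq_sqrt hm'.le
    set t : ℝ := (⌈s⌉₊ : ℝ) with ht
    have ht1 : s ≤ t := Nat.le_ceil s
    have ht2 : t ≤ s + 1 := (Nat.ceil_lt_add_one hspos.le).le
    have htpos : 0 < t := lt_of_lt_of_le hspos ht1
    unfold lap
    rw [← hs]
    have h1 : s / t ≤ exp (s / t - 1) := by
      have := add_one_le_exp (s / t - 1); linarith
    have h2 : (s / t) ^ m ≤ exp (m * (s / t - 1)) := by
      rw [exp_nat_mul]; exact pow_le_pow_left₀ (by positivity) h1 m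
    have h3 : s ^ m = t ^ m * (s / t) ^ m := by
      rw [← mul_pow]; congr 1; field_simp
    rw [h3, mul_assoc, mul_left_comm (exp 2)]
    apply mul_le_mul_of_nonneg_left _ (by positivity)
    calc (s / t) ^ m * exp (-(m : ℝ) / 2) ≤ exp (m * (s / t - 1)) * exp (-(m : ℝ) / 2) := by gcongr
      _ = exp (m * (s / t - 1) + -(m : ℝ) / 2) := by rw [exp_add]
      _ ≤ exp (2 + -t ^ 2 / 2) := by
        apply exp_le_exp.mpr
        rw [← hss]
        have key : s ^ 2 * (s / t - 1) ≤ -(s * (t - s)) + (t - s) ^ 2 := by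
          have e : s ^ 2 * (s / t - 1) = -(s ^ 2 * (t - s)) / t := by field_simp; ring
          rw [e, div_le_iff₀ htpos]
          have : 0 ≤ (t - s) ^ 3 := by apply pow_nonneg; linarith
          nlinarith
        nlinarith
      _ = exp 2 * exp (-t ^ 2 / 2) := by rw [exp_add]

lemma pm_le_grid (m N : ℕ) (hN : ⌈√(m : ℝ)⌉₊ < N) :
    (pm m : ℝ) ≤ 3 * exp 2 * ∑ t ∈ range N, (t : ℝ) ^ m * exp (-(t : ℝ) ^ 2 / 2) := by
  have h1 := pm_le_lap m
  have h2 := lap_le_grid m
  have h3 : ((⌈√(m : ℝ)⌉₊ : ℝ) ^ m * exp (-(⌈√(m : ℝ)⌉₊ : ℝ) ^ 2 / 2)) ≤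
      ∑ t ∈ range N, (t : ℝ) ^ m * exp (-(t : ℝ) ^ 2 / 2) :=
    single_le_sum (f := fun t : ℕ => (t : ℝ) ^ m * exp (-(t : ℝ) ^ 2 / 2))
      (fun t _ => by positivity) (mem_range.mpr hN)
  have h4 : 0 < exp 2 := exp_pos 2
  nlinarith

end Pool.Agent.MP_c4b7b1_co

end

section

/-! Counting graphs with a prescribed degree function. -/

namespace Pool.Agent.MP_c4b7b1_co

open Finset SimpleGraph

variable {V : Type*} [Fintype V] [DecidableEq V]

open Classical in
/-- neighbours of a vertex -/
noncomputable def nb (G : SimpleGraph V) (v : V) : Finset V := univ.filter (G.Adj v)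

omit [DecidableEq V] in
@[simp] lemma mem_nb {G : SimpleGraph V} {v w : V} : w ∈ nb G v ↔ G.Adj v w := by
  simp [nb]

/-- degree of a vertex -/
noncomputable def deg (G : SimpleGraph V) (v : V) : ℕ := (nb G v).card

open Classical in
/-- graphs with degree function `d` -/
noncomputable def gset (d : V → ℕ) : Finset (SimpleGraph V) :=
  univ.filter (fun G => ∀ v, deg G v = d v)

lemma mem_gset {d : V → ℕ} {G : SimpleGraph V} : G ∈ gset d ↔ ∀ v, deg G v = d v := by
  simp [gset]

omit [DecidableEq V] in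
lemma deg_mono {G H : SimpleGraph V} (h : G ≤ H) (v : V) : deg G v ≤ deg H v := by
  classical
  unfold deg
  apply card_le_card
  intro x hx
  simp only [mem_nb] at hx ⊢
  exact h hx

lemma deg_sup_le (G H : SimpleGraph V) (v : V) : deg (G ⊔ H) v ≤ deg G v + deg H v := by
  classical
  unfold deg
  refine le_trans (card_le_card ?_) (card_union_le _ _)
  intro x hx
  simp only [mem_nb, mem_union, sup_adj] at hx ⊢
  exact hx

lemma deg_sup {G H : SimpleGraph V} (h : Disjoint G H) (v : V) :
    deg (G ⊔ H) v = deg G v + deg H v := by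
  classical
  unfold deg
  rw [← card_union_of_disjoint]
  · congr 1
    ext x
    simp
  · rw [Finset.disjoint_left]
    intro x h1 h2
    rw [mem_nb] at h1 h2
    have : (G ⊓ H).Adj v x := ⟨h1, h2⟩
    rw [h.eq_bot] at this
    exact this

omit [DecidableEq V] in
lemma deg_eq_zero {G : SimpleGraph V} {v : V} : deg G v = 0 ↔ ∀ w, ¬ G.Adj v w := by
  classical
  simp [deg, eq_empty_iff_forall_notMem]

omit [DecidableEq V] in
lemma deg_bot (v : V) : deg (⊥ : SimpleGraph V) v = 0 := deg_eq_zero.mpr (fun _ h => h)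

omit [DecidableEq V] in
lemma deg_le_one {G : SimpleGraph V} {v : V} :
    deg G v ≤ 1 ↔ ∀ x y, G.Adj v x → G.Adj v y → x = y := by
  classical
  unfold deg
  rw [card_le_one]
  simp only [mem_nb]
  constructor
  · intro h x y hx hy; exact h x hx y hy
  · intro h x hx y hy; exact h x y hx hy

lemma deg_edge {a b : V} (hab : a ≠ b) (v : V) :
    deg (edge a b) v = (if v = a then 1 else 0) + (if v = b then 1 else 0) := by
  classical
  unfold deg
  by_cases h1 : v = a
  · subst h1
    have : nb (edge v b) v = {b} := by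
      ext x; simp only [mem_nb, true_and, edge_adj, mem_singleton]
      constructor
      · rintro ⟨h | h, h'⟩
        · exact h
        · exact absurd h.1 hab
      · rintro rfl; exact ⟨Or.inl rfl, hab⟩
    rw [this]; simp [hab]
  · by_cases h2 : v = b
    · subst h2
      have : nb (edge a v) v = {a} := by
        ext x; simp only [mem_nb, true_and, edge_adj, mem_singleton]
        constructor
        · rintro ⟨h | h, h'⟩
          · exact absurd h.1 h1
          · exact h
        · rintro rfl; exact ⟨Or.inr rfl, h1⟩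
      rw [this]; simp [h1]
    · have : nb (edge a b) v = ∅ := by
        ext x; simp [edge_adj, h1, h2]
      rw [this]; simp [h1, h2]

omit [Fintype V] [DecidableEq V] in
lemma disjoint_edge {G : SimpleGraph V} {a b : V} (h : ¬ G.Adj a b) : Disjoint G (edge a b) := by
  rw [disjoint_iff]
  ext x y
  simp only [inf_adj, edge_adj, bot_adj, iff_false]
  rintro ⟨h1, h2 | h2, -⟩
  · obtain ⟨rfl, rfl⟩ := h2; exact h h1
  · obtain ⟨rfl, rfl⟩ := h2; exact h h1.symm

open Classical in
lemma card_adj_eq {a b : V} (hab : a ≠ b) (d d' : V → ℕ)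
    (hd : ∀ v, d v = d' v + ((if v = a then 1 else 0) + (if v = b then 1 else 0))) :
    ((gset d).filter (fun G => G.Adj a b)).card =
      ((gset d').filter (fun G => ¬ G.Adj a b)).card := by
  symm
  apply card_bij (fun G _ => G ⊔ edge a b)
  · intro G hG
    rw [mem_filter, mem_gset] at hG ⊢
    refine ⟨fun v => ?_, ?_⟩
    · rw [deg_sup (disjoint_edge hG.2), hG.1, deg_edge hab, hd]
    · right; simp [edge_adj, hab]
  · intro G hG H hH h
    rw [mem_filter] at hG hH
    have h1 := (disjoint_edge hG.2).sup_sdiff_cancel_right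
    have h2 := (disjoint_edge hH.2).sup_sdiff_cancel_right
    rw [← h1, ← h2, h]
  · intro G hG
    rw [mem_filter, mem_gset] at hG
    have hle : edge a b ≤ G := by
      intro x y hxy
      rw [edge_adj] at hxy
      rcases hxy with ⟨⟨rfl, rfl⟩ | ⟨rfl, rfl⟩, -⟩
      · exact hG.2
      · exact hG.2.symm
    have hna : ¬ (G \ edge a b).Adj a b := by
      simp [edge_adj, hab]
    have hsup : G \ edge a b ⊔ edge a b = G := sdiff_sup_cancel hle
    refine ⟨G \ edge a b, ?_, hsup⟩
    rw [mem_filter, mem_gset]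
    refine ⟨fun v => ?_, hna⟩
    have := deg_sup (disjoint_edge hna) v
    rw [hsup, hG.1, deg_edge hab, hd] at this
    omega

open Classical in
lemma mul_card_eq (d : V → ℕ) (a : V) :
    d a * (gset d).card = ∑ b, ((gset d).filter (fun G => G.Adj a b)).card := by
  simp only [card_filter]
  rw [sum_comm, mul_comm, card_eq_sum_ones, sum_mul]
  apply sum_congr rfl
  intro G hG
  rw [mem_gset] at hG
  rw [← hG a, one_mul, deg, nb, card_filter]

/-- the configuration-model upper bound -/
theorem card_gset_le (m : ℕ) : ∀ d : V → ℕ, ∑ v, d v = m →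
    (gset d).card * ∏ v, (d v).factorial ≤ pm m := by
  classical
  induction m using Nat.strong_induction_on with
  | _ m ih =>
    intro d hm
    by_cases h0 : ∀ v, d v = 0
    · have : m = 0 := by rw [← hm]; simp [h0]
      subst this
      have h1 : (gset d).card ≤ 1 := by
        rw [card_le_one]
        intro G hG H hH
        rw [mem_gset] at hG hH
        ext x y
        have := deg_eq_zero.mp ((hG x).trans (h0 x)) y
        have := deg_eq_zero.mp ((hH x).trans (h0 x)) y
        tauto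
      simpa [h0, pm] using h1
    · push Not at h0
      obtain ⟨a, ha⟩ := h0
      have hapos : 0 < d a := Nat.pos_of_ne_zero ha
      have hsum : d a + ∑ b ∈ univ.erase a, d b = m := by
        rw [← hm, add_sum_erase _ _ (mem_univ a)]
      have key : ∀ b, ((gset d).filter (fun G => G.Adj a b)).card * ∏ v, (d v).factorial ≤
          d a * ((if b = a then 0 else d b) * pm (m - 2)) := by
        intro b
        by_cases hb : b = a
        · subst hb
          have : (gset d).filter (fun G => G.Adj b b) = ∅ := by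
            ext G; simp
          rw [this]; simp
        · by_cases hb0 : d b = 0
          · have : (gset d).filter (fun G => G.Adj a b) = ∅ := by
              ext G
              simp only [mem_filter, mem_gset, notMem_empty, iff_false, not_and]
              intro hG hadj
              exact deg_eq_zero.mp ((hG b).trans hb0) a hadj.symm
            rw [this]; simp
          · set d' : V → ℕ := fun v => d v - ((if v = a then 1 else 0) + (if v = b then 1 else 0))
              with hd'
            have hd : ∀ v, d v = d' v + ((if v = a then 1 else 0) + (if v = b then 1 else 0)) := by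
              intro v
              simp only [hd']
              by_cases h1 : v = a
              · subst h1; simp [Ne.symm hb]; omega
              · by_cases h2 : v = b
                · subst h2; simp [h1]; omega
                · simp [h1, h2]
            have hs : ∑ v, d' v + 2 = m := by
              rw [← hm, sum_congr rfl (fun v _ => hd v), sum_add_distrib, sum_add_distrib]
              simp
            have hp : ∏ v, (d v).factorial = d a * d b * ∏ v, (d' v).factorial := by
              have : ∀ v, (d v).factorial =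
                  ((if v = a then d v else 1) * (if v = b then d v else 1)) * (d' v).factorial := by
                intro v
                have hv := hd v
                by_cases h1 : v = a
                · subst h1
                  simp only [if_true, Ne.symm hb, if_false, add_zero, mul_one] at hv ⊢
                  rw [hv, Nat.factorial_succ]
                · by_cases h2 : v = b
                  · subst h2
                    simp only [if_true, h1, if_false, zero_add, one_mul] at hv ⊢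
                    rw [hv, Nat.factorial_succ]
                  · simp only [h1, h2, if_false, add_zero, one_mul] at hv ⊢
                    rw [hv]
              rw [prod_congr rfl (fun v _ => this v), prod_mul_distrib, prod_mul_distrib]
              simp
            have hih := ih (m - 2) (by omega) d' (by omega)
            rw [card_adj_eq (Ne.symm hb) d d' hd, hp, if_neg hb]
            have hc : ((gset d').filter (fun G => ¬ G.Adj a b)).card ≤ (gset d').card :=
              card_filter_le _ _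
            calc _ ≤ (gset d').card * (d a * d b * ∏ v, (d' v).factorial) := by gcongr
              _ = d a * (d b * ((gset d').card * ∏ v, (d' v).factorial)) := by ring
              _ ≤ _ := by gcongr
      have h2 : d a * ((gset d).card * ∏ v, (d v).factorial) ≤ d a * pm m := by
        rw [← mul_assoc, mul_card_eq, sum_mul]
        refine (sum_le_sum (fun b _ => key b)).trans ?_
        rw [← mul_sum, ← sum_mul]
        apply Nat.mul_le_mul_left
        rw [← pm_pred m (by omega)]
        apply Nat.mul_le_mul_right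
        have : ∑ b, (if b = a then 0 else d b) = ∑ b ∈ univ.erase a, d b := by
          rw [← add_sum_erase _ _ (mem_univ a), if_pos rfl, zero_add]
          apply sum_congr rfl
          intro b hb
          rw [if_neg (ne_of_mem_erase hb)]
        omega
      exact Nat.le_of_mul_le_mul_left h2 hapos

/-- lower bound for the number of perfect matchings of a vertex subset -/
theorem pm_le_card (m : ℕ) : ∀ S : Finset V, S.card = m →
    pm m ≤ (gset (fun v => if v ∈ S then 1 else 0)).card := by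
  classical
  induction m using Nat.strong_induction_on with
  | _ m ih =>
    intro S hm
    rcases S.eq_empty_or_nonempty with rfl | ⟨a, ha⟩
    · simp only [card_empty] at hm
      subst hm
      apply card_pos.mpr
      exact ⟨⊥, mem_gset.mpr (fun v => by simp [deg_bot])⟩
    · have hm1 : 1 ≤ m := by rw [← hm]; exact card_pos.mpr ⟨a, ha⟩
      have h1 := mul_card_eq (fun v => if v ∈ S then 1 else 0) a
      simp only [ha, if_true, one_mul] at h1
      rw [h1, ← pm_pred m hm1]
      have key : ∀ b ∈ S.erase a, pm (m - 2) ≤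
          ((gset (fun v => if v ∈ S then 1 else 0)).filter (fun G => G.Adj a b)).card := by
        intro b hb
        have hba : b ≠ a := ne_of_mem_erase hb
        have hbS : b ∈ S := mem_of_mem_erase hb
        have hc : ((S.erase a).erase b).card = m - 2 := by
          rw [card_erase_of_mem hb, card_erase_of_mem ha]; omega
        have hm2 : 2 ≤ m := by
          have := card_pos.mpr ⟨b, hb⟩
          rw [card_erase_of_mem ha] at this; omega
        rw [card_adj_eq hba.symm _ (fun v => if v ∈ (S.erase a).erase b then 1 else 0)]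
        · refine (ih (m - 2) (by omega) _ hc).trans (le_of_eq ?_)
          congr 1
          symm
          apply filter_true_of_mem
          intro G hG
          rw [mem_gset] at hG
          apply deg_eq_zero.mp
          rw [hG a]; simp
        · intro v
          by_cases h1 : v = a
          · subst h1; simp [ha, hba.symm]
          · by_cases h2 : v = b
            · subst h2; simp [hbS, h1]
            · simp [h1, h2]
      calc (m - 1) * pm (m - 2) = ∑ b ∈ S.erase a, pm (m - 2) := by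
            rw [sum_const, card_erase_of_mem ha, hm, smul_eq_mul]
        _ ≤ ∑ b ∈ S.erase a,
            ((gset (fun v => if v ∈ S then 1 else 0)).filter (fun G => G.Adj a b)).card :=
            sum_le_sum key
        _ ≤ _ := sum_le_sum_of_subset (subset_univ _)

end Pool.Agent.MP_c4b7b1_co

end

section

/-! A discrete Laplace-method upper bound for weighted counts of labelled graph families. -/

namespace Pool.Agent.MP_c4b7b1_co

open Finset Real

variable {L : Type} [Fintype L] [DecidableEq L]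

/-- divided-power monomial -/
noncomputable def mono (d : L → ℕ) (t : L → ℝ) : ℝ := ∏ l, t l ^ d l / (d l).factorial

/-- vertex generating function -/
noncomputable def fT (T : Finset (L → ℕ)) (c : (L → ℕ) → ℝ) (t : L → ℝ) : ℝ :=
  ∑ d ∈ T, c d * mono d t

open Classical in
/-- weighted number of families of graphs all of whose degree vectors lie in `T` -/
noncomputable def cnt (V : Type) [Fintype V] [DecidableEq V]
    (T : Finset (L → ℕ)) (c : (L → ℕ) → ℝ) : ℝ :=
  ∑ F ∈ univ.filter (fun F : L → SimpleGraph V => ∀ v, (fun l => deg (F l) v) ∈ T),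
    ∏ v, c (fun l => deg (F l) v)

/-- the Laplace value -/
noncomputable def Lv (D : ℕ) (P β : ℝ) (n : ℕ) : ℝ :=
  P ^ n * (√(n : ℝ)) ^ (D * n) * exp (-((D : ℝ) * n) / 2) * exp (β * √(n : ℝ))

omit [DecidableEq L] in
lemma mono_nonneg (d : L → ℕ) {t : L → ℝ} (ht : ∀ l, 0 ≤ t l) : 0 ≤ mono d t :=
  prod_nonneg (fun l _ => by have := ht l; positivity)

omit [DecidableEq L] in
lemma fT_nonneg (T : Finset (L → ℕ)) {c : (L → ℕ) → ℝ} (hc : ∀ d, 0 ≤ c d)
    {t : L → ℝ} (ht : ∀ l, 0 ≤ t l) : 0 ≤ fT T c t :=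
  sum_nonneg (fun d _ => mul_nonneg (hc d) (mono_nonneg d ht))

theorem cnt_le_grid (V : Type) [Fintype V] [DecidableEq V]
    (T : Finset (L → ℕ)) (c : (L → ℕ) → ℝ) (hc : ∀ d, 0 ≤ c d) (D N : ℕ)
    (hD : ∀ d ∈ T, ∑ l, d l ≤ D) (hN : ⌈√((D * Fintype.card V : ℕ) : ℝ)⌉₊ < N) :
    cnt V T c ≤ (3 * exp 2) ^ Fintype.card L *
      ∑ t ∈ Fintype.piFinset (fun _ : L => range N),
        (fT T c (fun l => (t l : ℝ))) ^ Fintype.card V * exp (-(∑ l, (t l : ℝ) ^ 2) / 2) := by
  classical
  have h1 : cnt V T c = ∑ τ ∈ Fintype.piFinset (fun _ : V => T),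
      (∏ v, c (τ v)) * ∏ l, ((gset (fun v => τ v l)).card : ℝ) := by
    unfold cnt
    rw [← sum_fiberwise_of_maps_to (t := Fintype.piFinset (fun _ : V => T))
      (g := fun (F : L → SimpleGraph V) v l => deg (F l) v)]
    · apply sum_congr rfl
      intro τ hτ
      rw [Fintype.mem_piFinset] at hτ
      have e : (univ.filter (fun F : L → SimpleGraph V => ∀ v, (fun l => deg (F l) v) ∈ T)).filter
          (fun F => (fun v l => deg (F l) v) = τ) =
          Fintype.piFinset (fun l => gset (fun v => τ v l)) := by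
        ext F
        simp only [mem_filter, mem_univ, true_and, Fintype.mem_piFinset, mem_gset]
        constructor
        · rintro ⟨-, rfl⟩ l v; rfl
        · intro h
          have : (fun v l => deg (F l) v) = τ := by
            funext v l; exact h l v
          refine ⟨fun v => ?_, this⟩
          have h2 : (fun l => deg (F l) v) = τ v := congrFun this v
          rw [h2]; exact hτ v
      rw [e, sum_congr rfl (g := fun _ => ∏ v, c (τ v)), sum_const, Fintype.card_piFinset,
        nsmul_eq_mul, mul_comm]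
      · push_cast; rfl
      · intro F hF
        simp only [Fintype.mem_piFinset, mem_gset] at hF
        apply prod_congr rfl
        intro v _
        congr 1
        funext l; exact hF l v
    · intro F hF
      simp only [mem_filter, mem_univ, true_and] at hF
      exact Fintype.mem_piFinset.mpr hF
  have h2 : ∀ τ ∈ Fintype.piFinset (fun _ : V => T), ∀ l,
      ((gset (fun v => τ v l)).card : ℝ) ≤ (3 * exp 2) * ∑ t ∈ range N,
        (∏ v, (t : ℝ) ^ τ v l / (τ v l).factorial) * exp (-(t : ℝ) ^ 2 / 2) := by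
    intro τ hτ l
    rw [Fintype.mem_piFinset] at hτ
    have ha := card_gset_le _ (fun v => τ v l) rfl
    have hb : ((gset (fun v => τ v l)).card : ℝ) * ∏ v, ((τ v l).factorial : ℝ) ≤
        pm (∑ v, τ v l) := by exact_mod_cast ha
    have hm : ∑ v, τ v l ≤ D * Fintype.card V := by
      calc ∑ v, τ v l ≤ ∑ _v : V, D := by
            apply sum_le_sum
            intro v _
            exact (single_le_sum (f := τ v) (fun _ _ => Nat.zero_le _) (mem_univ l)).trans
              (hD _ (hτ v))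
        _ = _ := by simp [mul_comm]
    have hN' : ⌈√((∑ v, τ v l : ℕ) : ℝ)⌉₊ < N := by
      refine lt_of_le_of_lt (Nat.ceil_mono (sqrt_le_sqrt ?_)) hN
      exact_mod_cast hm
    have hd := pm_le_grid _ _ hN'
    have hpos : (0 : ℝ) < ∏ v, ((τ v l).factorial : ℝ) := by positivity
    rw [← le_div_iff₀ hpos] at hb
    refine hb.trans ((div_le_div_of_nonneg_right hd hpos.le).trans (le_of_eq ?_))
    rw [mul_div_assoc, sum_div]
    congr 1
    apply sum_congr rfl
    intro t _
    rw [prod_div_distrib, prod_pow_eq_pow_sum]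
    ring
  rw [h1]
  calc _ ≤ ∑ τ ∈ Fintype.piFinset (fun _ : V => T), (∏ v, c (τ v)) * ∏ l : L, ((3 * exp 2) *
        ∑ t ∈ range N, (∏ v, (t : ℝ) ^ τ v l / (τ v l).factorial) * exp (-(t : ℝ) ^ 2 / 2)) := by
        apply sum_le_sum
        intro τ hτ
        apply mul_le_mul_of_nonneg_left _ (prod_nonneg (fun v _ => hc _))
        exact prod_le_prod (fun l _ => by positivity) (fun l _ => h2 τ hτ l)
    _ = ∑ τ ∈ Fintype.piFinset (fun _ : V => T), (3 * exp 2) ^ Fintype.card L *
        ∑ t ∈ Fintype.piFinset (fun _ : L => range N),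
          (∏ v, c (τ v) * mono (τ v) (fun l => (t l : ℝ))) * exp (-(∑ l, (t l : ℝ) ^ 2) / 2) := by
        apply sum_congr rfl
        intro τ _
        rw [prod_mul_distrib, prod_const, card_univ, prod_univ_sum, mul_left_comm, mul_sum]
        congr 1
        apply sum_congr rfl
        intro t _
        rw [prod_mul_distrib, prod_mul_distrib, ← exp_sum, prod_comm, mul_assoc]
        unfold mono
        congr 3
        rw [← sum_div, ← sum_neg_distrib]
    _ = _ := by
        rw [← mul_sum, sum_comm]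
        congr 1
        apply sum_congr rfl
        intro t _
        rw [← sum_mul, ← prod_univ_sum (fun _ : V => T)
          (fun _ d => c d * mono d (fun l => (t l : ℝ))), prod_const, card_univ]
        rfl

lemma gauss_sum_le (k : ℝ) (hk : 0 < k) :
    ∃ C : ℝ, 0 ≤ C ∧ ∀ (N : ℕ) (a : ℝ), ∑ t ∈ range N, exp (-(k * ((t : ℝ) - a) ^ 2)) ≤ C := by
  have hs : Summable (fun j : ℤ => exp (-(2 * k) * |(j : ℝ)|)) := by
    have h0 : Summable (fun n : ℕ => exp (-(2 * k)) ^ n) :=
      summable_geometric_of_lt_one (exp_pos _).le (exp_lt_one_iff.mpr (by linarith))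
    apply Summable.of_nat_of_neg
    · refine h0.congr (fun n => ?_)
      rw [← exp_nat_mul]; congr 1; simp; ring
    · refine h0.congr (fun n => ?_)
      rw [← exp_nat_mul]; congr 1; simp; ring
  refine ⟨exp (3 * k) * ∑' j : ℤ, exp (-(2 * k) * |(j : ℝ)|), ?_, fun N a => ?_⟩
  · exact mul_nonneg (exp_pos _).le (tsum_nonneg (fun _ => (exp_pos _).le))
  · have h1 : ∀ t ∈ range N, exp (-(k * ((t : ℝ) - a) ^ 2)) ≤
        exp (3 * k) * exp (-(2 * k) * |(((t : ℤ) - ⌊a⌋ : ℤ) : ℝ)|) := by
      intro t _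
      rw [← exp_add]
      apply exp_le_exp.mpr
      have e1 := Int.floor_le a
      have e2 := Int.lt_floor_add_one a
      have e3 : |(((t : ℤ) - ⌊a⌋ : ℤ) : ℝ)| ≤ |(t : ℝ) - a| + 1 := by
        push_cast
        rw [abs_le]
        constructor
        · have := neg_abs_le ((t : ℝ) - a); linarith
        · have := le_abs_self ((t : ℝ) - a); linarith
      have e4 : 2 * |(t : ℝ) - a| - 1 ≤ ((t : ℝ) - a) ^ 2 := by
        rw [← sq_abs]; nlinarith [sq_nonneg (|(t : ℝ) - a| - 1)]
      nlinarith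
    refine (sum_le_sum h1).trans ?_
    rw [← mul_sum]
    apply mul_le_mul_of_nonneg_left _ (exp_pos _).le
    rw [← sum_image (s := range N) (g := fun t : ℕ => (t : ℤ) - ⌊a⌋)
      (f := fun j : ℤ => exp (-(2 * k) * |(j : ℝ)|))]
    · exact hs.sum_le_tsum _ (fun _ _ => (exp_pos _).le)
    · intro x _ y _ h
      simp only at h
      omega

omit [DecidableEq L] in
lemma mono_le_exp (d : L → ℕ) {y : L → ℝ} (hy : ∀ l, 0 ≤ y l) :
    mono d y ≤ exp (Fintype.card L + (∑ l, y l ^ 2) / 4) := by
  unfold mono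
  calc _ ≤ ∏ l, exp (1 + y l ^ 2 / 4) := by
        apply prod_le_prod (fun l _ => by have := hy l; positivity)
        intro l _
        refine (pow_div_factorial_le_exp _ (hy l) _).trans (exp_le_exp.mpr ?_)
        nlinarith [sq_nonneg (y l - 2)]
    _ = _ := by
        rw [← exp_sum, sum_add_distrib, sum_div]; simp

omit [DecidableEq L] in
lemma fT_le_exp (T : Finset (L → ℕ)) {c : (L → ℕ) → ℝ} (hc : ∀ d, 0 ≤ c d)
    {y : L → ℝ} (hy : ∀ l, 0 ≤ y l) :
    fT T c y ≤ (∑ d ∈ T, c d) * exp (Fintype.card L + (∑ l, y l ^ 2) / 4) := by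
  unfold fT
  rw [sum_mul]
  exact sum_le_sum (fun d _ => mul_le_mul_of_nonneg_left (mono_le_exp d hy) (hc d))

omit [DecidableEq L] in
lemma mono_smul (d : L → ℕ) (s : ℝ) (y : L → ℝ) :
    mono d (fun l => s * y l) = s ^ (∑ l, d l) * mono d y := by
  unfold mono
  rw [← prod_pow_eq_pow_sum, ← prod_mul_distrib]
  apply prod_congr rfl
  intro l _
  rw [mul_pow]; ring

omit [DecidableEq L] in
lemma fT_smul_le (T : Finset (L → ℕ)) {c : (L → ℕ) → ℝ} (hc : ∀ d, 0 ≤ c d) (D : ℕ)
    (hD : ∀ d ∈ T, ∑ l, d l ≤ D) {s : ℝ} (hs : 1 ≤ s) {y : L → ℝ} (hy : ∀ l, 0 ≤ y l) :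
    fT T c (fun l => s * y l) ≤ s ^ D * (fT (T.filter (fun d => ∑ l, d l = D)) c y +
      fT (T.filter (fun d => ∑ l, d l + 1 = D)) c y / s + fT T c y / s ^ 2) := by
  unfold fT
  rw [sum_filter, sum_filter, sum_div, sum_div, ← sum_add_distrib, ← sum_add_distrib, mul_sum]
  apply sum_le_sum
  intro d hd
  have h0 : 0 ≤ c d * mono d y := mul_nonneg (hc d) (mono_nonneg d hy)
  have hs0 : 0 < s := by linarith
  rw [mono_smul, mul_left_comm]
  set A := c d * mono d y
  have hle := hD d hd
  by_cases h1 : ∑ l, d l = D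
  · rw [if_pos h1, if_neg (by omega), h1]
    apply mul_le_mul_of_nonneg_left _ (by positivity)
    have : 0 ≤ A / s ^ 2 := by positivity
    simp only [zero_div, add_zero]; linarith
  · rw [if_neg h1]
    by_cases h2 : ∑ l, d l + 1 = D
    · rw [if_pos h2, ← h2, pow_succ]
      have : 0 ≤ A / s ^ 2 := by positivity
      have e : s ^ (∑ l, d l) * A = s ^ (∑ l, d l) * s * (A / s) := by field_simp
      rw [e]
      apply mul_le_mul_of_nonneg_left _ (by positivity)
      linarith
    · rw [if_neg h2]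
      have e : s ^ (∑ l, d l) * A = s ^ (∑ l, d l + 2) * (A / s ^ 2) := by
        rw [pow_add]; field_simp
      rw [e]
      simp only [zero_div, add_zero, zero_add]
      apply mul_le_mul_of_nonneg_right _ (by positivity)
      exact pow_le_pow_right₀ hs (by omega)

omit [DecidableEq L] in
lemma lip_at (φ : (L → ℝ) → ℝ) (u : L → ℝ) (hφ : DifferentiableAt ℝ φ u) (h0 : 0 ≤ φ u)
    (B : ℝ) (hB : ∀ y : L → ℝ, (∀ l, 0 ≤ y l) → φ y ≤ B) :
    ∃ K : ℝ, 0 ≤ K ∧ ∀ y : L → ℝ, (∀ l, 0 ≤ y l) → φ y ≤ φ u + K * ‖y - u‖ := by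
  obtain ⟨C, hC⟩ := hφ.isBigO_sub.bound
  obtain ⟨ε, hε, hball⟩ := Metric.eventually_nhds_iff.mp hC
  refine ⟨|C| + |B| / ε, by positivity, fun y hy => ?_⟩
  have hn : 0 ≤ ‖y - u‖ := norm_nonneg _
  by_cases h : dist y u < ε
  · have h1 := hball h
    have h2 : φ y - φ u ≤ ‖φ y - φ u‖ := le_norm_self _
    have h3 : C * ‖y - u‖ ≤ |C| * ‖y - u‖ := by gcongr; exact le_abs_self C
    have h4 : 0 ≤ |B| / ε * ‖y - u‖ := by positivity
    nlinarith
  · push Not at h
    rw [dist_eq_norm] at h
    have h1 := hB y hy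
    have h2 : |B| ≤ |B| / ε * ‖y - u‖ := by
      rw [div_mul_eq_mul_div, le_div_iff₀ hε]; gcongr
    have h3 := le_abs_self B
    have h4 : 0 ≤ |C| * ‖y - u‖ := by positivity
    nlinarith

omit [DecidableEq L] in
lemma norm_sq_le_sum (y : L → ℝ) : ‖y‖ ^ 2 ≤ ∑ l, y l ^ 2 := by
  have h : ‖y‖ ≤ √(∑ l, y l ^ 2) := by
    apply (pi_norm_le_iff_of_nonneg (sqrt_nonneg _)).mpr
    intro l
    apply Real.abs_le_sqrt
    exact single_le_sum (f := fun l => y l ^ 2) (fun _ _ => sq_nonneg _) (mem_univ l)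
  calc ‖y‖ ^ 2 ≤ √(∑ l, y l ^ 2) ^ 2 := by gcongr
    _ = _ := sq_sqrt (sum_nonneg (fun _ _ => sq_nonneg _))

omit [DecidableEq L] in
lemma fT_diff (T : Finset (L → ℕ)) (c : (L → ℕ) → ℝ) : Differentiable ℝ (fT T c) := by
  classical
  unfold fT mono
  fun_prop

omit [DecidableEq L] in
theorem pointwise (T : Finset (L → ℕ)) (c : (L → ℕ) → ℝ) (hc : ∀ d, 0 ≤ c d) (D : ℕ)
    (hD : ∀ d ∈ T, ∑ l, d l ≤ D) (u : L → ℝ) (hu0 : ∀ l, 0 ≤ u l) (hu : ∑ l, u l ^ 2 = D)
    (P β κ : ℝ) (hP : 0 < P) (hκ : 0 < κ) (hκ' : κ ≤ 1 / 8)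
    (hβ : fT (T.filter (fun d => ∑ l, d l + 1 = D)) c u ≤ β * P)
    (H : ∀ y : L → ℝ, (∀ l, 0 ≤ y l) → fT (T.filter (fun d => ∑ l, d l = D)) c y ≤
      P * exp ((∑ l, y l ^ 2) / 2 - D / 2 - κ * ∑ l, (y l - u l) ^ 2)) :
    ∃ K : ℝ, 0 ≤ K ∧ ∀ n : ℕ, 1 ≤ n → ∀ t : L → ℝ, (∀ l, 0 ≤ t l) →
      fT T c t ^ n * exp (-(∑ l, t l ^ 2) / 2) ≤
        K * Lv D P β n * exp (-(κ / 2 * ∑ l, (t l - √(n : ℝ) * u l) ^ 2)) := by
  classical
  set E : (L → ℝ) → ℝ := fun y => (∑ l, y l ^ 2) / 2 - D / 2 - κ * ∑ l, (y l - u l) ^ 2 with hE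
  set T1 := T.filter (fun d => ∑ l, d l + 1 = D) with hT1
  set T0 := T.filter (fun d => ∑ l, d l = D) with hT0
  -- boundedness
  have hbd : ∀ S : Finset (L → ℕ), ∃ B : ℝ, 0 ≤ B ∧ ∀ y : L → ℝ, (∀ l, 0 ≤ y l) →
      fT S c y * exp (-E y) / P ≤ B := by
    intro S
    have hS : 0 ≤ ∑ d ∈ S, c d := sum_nonneg (fun d _ => hc d)
    refine ⟨(∑ d ∈ S, c d) * exp (Fintype.card L + D) / P, by positivity, fun y hy => ?_⟩
    apply div_le_div_of_nonneg_right _ hP.le
    have h1 := fT_le_exp S hc hy
    calc _ ≤ (∑ d ∈ S, c d) * exp (Fintype.card L + (∑ l, y l ^ 2) / 4) * exp (-E y) := by gcongr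
      _ = (∑ d ∈ S, c d) * exp (Fintype.card L + (∑ l, y l ^ 2) / 4 + -E y) := by
          rw [mul_assoc, ← exp_add]
      _ ≤ _ := by
          apply mul_le_mul_of_nonneg_left (exp_le_exp.mpr _) hS
          have h2 : ∑ l, (y l - u l) ^ 2 ≤ 2 * (∑ l, y l ^ 2) + 2 * D := by
            rw [← hu, mul_sum, mul_sum, ← sum_add_distrib]
            apply sum_le_sum
            intro l _
            nlinarith [sq_nonneg (y l + u l)]
          have h3 : 0 ≤ ∑ l, (y l - u l) ^ 2 := sum_nonneg (fun _ _ => sq_nonneg _)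
          have h4 : κ * ∑ l, (y l - u l) ^ 2 ≤ 1 / 8 * ∑ l, (y l - u l) ^ 2 := by gcongr
          have h5 : (0 : ℝ) ≤ D := by positivity
          simp only [hE]
          linarith
  obtain ⟨B1, -, hB1⟩ := hbd T1
  obtain ⟨B, hB0, hB⟩ := hbd T
  set φ : (L → ℝ) → ℝ := fun y => fT T1 c y * exp (-E y) / P with hφ
  have hEu : E u = 0 := by simp [hE, hu]
  have hφu : φ u ≤ β := by
    simp only [hφ, hEu, neg_zero, exp_zero, mul_one]
    rwa [div_le_iff₀ hP]
  have hφd : DifferentiableAt ℝ φ u := by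
    have := fT_diff T1 c
    simp only [hφ, hE]
    fun_prop
  obtain ⟨K, hK0, hK⟩ := lip_at φ u hφd
    (div_nonneg (mul_nonneg (fT_nonneg _ hc hu0) (exp_pos _).le) hP.le) B1 hB1
  refine ⟨exp (B + K ^ 2 / (2 * κ)), (exp_pos _).le, fun n hn t ht => ?_⟩
  have hn' : (1 : ℝ) ≤ n := by exact_mod_cast hn
  set s := √(n : ℝ) with hs
  have hs1 : 1 ≤ s := Real.le_sqrt_of_sq_le (by linarith)
  have hs0 : 0 < s := by linarith
  have hss : s ^ 2 = n := sq_sqrt (by linarith)
  set y : L → ℝ := fun l => t l / s with hy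
  have hy0 : ∀ l, 0 ≤ y l := fun l => div_nonneg (ht l) hs0.le
  have hty : t = fun l => s * y l := by
    funext l; simp only [hy]; field_simp
  have h1 := fT_smul_le T hc D hD hs1 hy0
  rw [← hty, ← hT0, ← hT1] at h1
  have h2 : fT T0 c y ≤ P * exp (E y) := H y hy0
  have hG : 0 < P * exp (E y) := by positivity
  have h3 : fT T1 c y = φ y * (P * exp (E y)) := by
    simp only [hφ]; rw [exp_neg]; field_simp
  have h4 : fT T c y ≤ B * (P * exp (E y)) := by
    have := hB y hy0
    rw [exp_neg, div_le_iff₀ hP, mul_inv_le_iff₀ (exp_pos _)] at this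
    linarith
  have h5 : fT T c t ≤ s ^ D * (P * exp (E y)) * exp (φ y / s + B / s ^ 2) := by
    refine h1.trans ?_
    rw [mul_assoc]
    apply mul_le_mul_of_nonneg_left _ (by positivity)
    have h6 := add_one_le_exp (φ y / s + B / s ^ 2)
    have h7 : fT T c y / s ^ 2 ≤ B * (P * exp (E y)) / s ^ 2 := by gcongr
    calc _ ≤ P * exp (E y) + φ y * (P * exp (E y)) / s + B * (P * exp (E y)) / s ^ 2 := by
          rw [← h3]; linarith
      _ = P * exp (E y) * (φ y / s + B / s ^ 2 + 1) := by ring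
      _ ≤ _ := by gcongr
  have h6 : fT T c t ^ n ≤ P ^ n * s ^ (D * n) * exp (n * (E y + (φ y / s + B / s ^ 2))) := by
    refine (pow_le_pow_left₀ (fT_nonneg T hc ht) h5 n).trans (le_of_eq ?_)
    rw [exp_nat_mul, exp_add (E y), pow_mul]
    simp only [mul_pow]; ring
  have e1 : ∑ l, t l ^ 2 = s ^ 2 * ∑ l, y l ^ 2 := by
    rw [mul_sum]; apply sum_congr rfl; intro l _; rw [hty]; ring
  have e2 : ∑ l, (t l - s * u l) ^ 2 = s ^ 2 * ∑ l, (y l - u l) ^ 2 := by
    rw [mul_sum]; apply sum_congr rfl; intro l _; rw [hty]; ring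
  have h7 : ‖y - u‖ ^ 2 ≤ ∑ l, (y l - u l) ^ 2 := norm_sq_le_sum (y - u)
  have h8 := hK y hy0
  have h9 : s * (K * ‖y - u‖) ≤ K ^ 2 / (2 * κ) + κ / 2 * (s ^ 2 * ‖y - u‖ ^ 2) := by
    have : 0 ≤ (K - κ * (s * ‖y - u‖)) ^ 2 / (2 * κ) := by positivity
    have e : (K - κ * (s * ‖y - u‖)) ^ 2 / (2 * κ) =
        K ^ 2 / (2 * κ) + κ / 2 * (s ^ 2 * ‖y - u‖ ^ 2) - s * (K * ‖y - u‖) := by
      field_simp; ring
    linarith
  calc _ ≤ P ^ n * s ^ (D * n) * exp (n * (E y + (φ y / s + B / s ^ 2))) *
        exp (-(∑ l, t l ^ 2) / 2) := by gcongr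
    _ = P ^ n * s ^ (D * n) * exp (n * (E y + (φ y / s + B / s ^ 2)) + -(∑ l, t l ^ 2) / 2) := by
        rw [exp_add]; ring
    _ ≤ P ^ n * s ^ (D * n) * exp (B + K ^ 2 / (2 * κ) + -((D : ℝ) * n) / 2 + β * s +
          -(κ / 2 * ∑ l, (t l - s * u l) ^ 2)) := by
        apply mul_le_mul_of_nonneg_left (exp_le_exp.mpr _) (by positivity)
        rw [e1, e2, ← hss]
        have e3 : s ^ 2 * (E y + (φ y / s + B / s ^ 2)) = s ^ 2 * E y + s * φ y + B := by
          field_simp; ring
        rw [e3]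
        simp only [hE]
        have h10 : s * φ y ≤ s * β + s * (K * ‖y - u‖) := by
          rw [← mul_add]; apply mul_le_mul_of_nonneg_left _ hs0.le; linarith
        have h11 : κ / 2 * (s ^ 2 * ‖y - u‖ ^ 2) ≤ κ / 2 * (s ^ 2 * ∑ l, (y l - u l) ^ 2) := by
          gcongr
        nlinarith
    _ = _ := by
        unfold Lv
        rw [← hs, exp_add, exp_add, exp_add]; ring

lemma Lv_pos (D : ℕ) {P : ℝ} (hP : 0 < P) (β : ℝ) {n : ℕ} (hn : 1 ≤ n) : 0 < Lv D P β n := by
  have : (0 : ℝ) < n := by exact_mod_cast hn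
  unfold Lv; positivity

/-- The Laplace upper bound. -/
theorem laplace (T : Finset (L → ℕ)) (c : (L → ℕ) → ℝ) (hc : ∀ d, 0 ≤ c d) (D : ℕ)
    (hD : ∀ d ∈ T, ∑ l, d l ≤ D) (u : L → ℝ) (hu0 : ∀ l, 0 ≤ u l) (hu : ∑ l, u l ^ 2 = D)
    (P β κ : ℝ) (hP : 0 < P) (hκ : 0 < κ) (hκ' : κ ≤ 1 / 8)
    (hβ : fT (T.filter (fun d => ∑ l, d l + 1 = D)) c u ≤ β * P)
    (H : ∀ y : L → ℝ, (∀ l, 0 ≤ y l) → fT (T.filter (fun d => ∑ l, d l = D)) c y ≤
      P * exp ((∑ l, y l ^ 2) / 2 - D / 2 - κ * ∑ l, (y l - u l) ^ 2)) :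
    ∃ C : ℝ, 0 < C ∧ ∀ n : ℕ, 1 ≤ n → cnt (Fin n) T c ≤ C * Lv D P β n := by
  obtain ⟨K, hK0, hK⟩ := pointwise T c hc D hD u hu0 hu P β κ hP hκ hκ' hβ H
  obtain ⟨C, hC0, hC⟩ := gauss_sum_le (κ / 2) (by linarith)
  refine ⟨(3 * exp 2) ^ Fintype.card L * (K * C ^ Fintype.card L) + 1, by positivity,
    fun n hn => ?_⟩
  have hL := Lv_pos D hP β hn
  have h1 := cnt_le_grid (Fin n) T c hc D _ hD (Nat.lt_succ_self _)
  set N := (⌈√((D * Fintype.card (Fin n) : ℕ) : ℝ)⌉₊).succ
  rw [Fintype.card_fin] at h1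
  have h2 : ∑ t ∈ Fintype.piFinset (fun _ : L => range N),
        (fT T c (fun l => (t l : ℝ))) ^ n * exp (-(∑ l, (t l : ℝ) ^ 2) / 2) ≤
        K * Lv D P β n * C ^ Fintype.card L := by
    calc _ ≤ ∑ t ∈ Fintype.piFinset (fun _ : L => range N),
          K * Lv D P β n * ∏ l, exp (-(κ / 2 * ((t l : ℝ) - √(n : ℝ) * u l) ^ 2)) := by
          apply sum_le_sum
          intro t _
          refine (hK n hn (fun l => (t l : ℝ)) (fun l => by positivity)).trans (le_of_eq ?_)
          rw [← exp_sum, mul_sum, sum_neg_distrib]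
      _ = K * Lv D P β n * ∏ l : L, ∑ t ∈ range N,
          exp (-(κ / 2 * ((t : ℝ) - √(n : ℝ) * u l) ^ 2)) := by
          rw [← mul_sum, prod_univ_sum]
      _ ≤ _ := by
          apply mul_le_mul_of_nonneg_left _ (by positivity)
          rw [← card_univ, ← prod_const]
          exact prod_le_prod (fun l _ => by positivity) (fun l _ => hC N _)
  calc _ ≤ _ := h1
    _ ≤ (3 * exp 2) ^ Fintype.card L * (K * Lv D P β n * C ^ Fintype.card L) := by gcongr
    _ ≤ _ := by nlinarith

end Pool.Agent.MP_c4b7b1_co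

end
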