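import Pool.Agent.Mg.Fc4b7b1.Gdbd521

section

/-! The base case: three weighted matchings. -/

namespace Pool.Agent.MP_c4b7b1_co

open Finset Real

/-- vertex types for two decompositions into three matchings -/
def T9 : Finset (Fin 9 → ℕ) :=
  (Fintype.piFinset (fun _ => range 2)).filter
    (fun d => (d 0 + (d 1 + d 2) ≤ 1 ∧ d 3 + (d 4 + d 5) ≤ 1 ∧ d 6 + (d 7 + d 8) ≤ 1) ∧
      (d 0 + (d 3 + d 6) ≤ 1 ∧ d 1 + (d 4 + d 7) ≤ 1 ∧ d 2 + (d 5 + d 8) ≤ 1))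

/-- weights of the types -/
noncomputable def c9 (ν : ℝ) (d : Fin 9 → ℕ) : ℝ :=
  (ν ^ (1 - (d 0 + (d 1 + d 2))) * ν ^ (1 - (d 3 + (d 4 + d 5))) * ν ^ (1 - (d 6 + (d 7 + d 8)))) *
  (ν ^ (1 - (d 0 + (d 3 + d 6))) * ν ^ (1 - (d 1 + (d 4 + d 7))) * ν ^ (1 - (d 2 + (d 5 + d 8))))

lemma mem_T9 {d : Fin 9 → ℕ} : d ∈ T9 ↔
    (d 0 + (d 1 + d 2) ≤ 1 ∧ d 3 + (d 4 + d 5) ≤ 1 ∧ d 6 + (d 7 + d 8) ≤ 1) ∧
      (d 0 + (d 3 + d 6) ≤ 1 ∧ d 1 + (d 4 + d 7) ≤ 1 ∧ d 2 + (d 5 + d 8) ≤ 1) := by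
  simp only [T9, mem_filter, Fintype.mem_piFinset, mem_range, and_iff_right_iff_imp]
  intro h l
  fin_cases l <;> simp <;> omega

lemma sum9 {M : Type*} [AddCommMonoid M] (f : Fin 9 → M) :
    ∑ i, f i = f 0 + f 1 + f 2 + f 3 + f 4 + f 5 + f 6 + f 7 + f 8 := by
  rw [Fin.sum_univ_castSucc, Fin.sum_univ_eight]; rfl

lemma prod9 {M : Type*} [CommMonoid M] (f : Fin 9 → M) :
    ∏ i, f i = f 0 * f 1 * f 2 * f 3 * f 4 * f 5 * f 6 * f 7 * f 8 := by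
  rw [Fin.prod_univ_castSucc, Fin.prod_univ_eight]; rfl

/-- permutation matrices -/
def tb0 : Fin 6 → Fin 9 → ℕ :=
  ![![1,0,0,0,1,0,0,0,1], ![1,0,0,0,0,1,0,1,0], ![0,1,0,1,0,0,0,0,1],
    ![0,1,0,0,0,1,1,0,0], ![0,0,1,1,0,0,0,1,0], ![0,0,1,0,1,0,1,0,0]]

/-- placements of two rooks -/
def tb1 : Fin 3 → Fin 6 → Fin 9 → ℕ :=
  ![![![0,0,0,0,1,0,0,0,1], ![0,0,0,0,0,1,0,1,0], ![0,0,0,1,0,0,0,0,1],
      ![0,0,0,0,0,1,1,0,0], ![0,0,0,1,0,0,0,1,0], ![0,0,0,0,1,0,1,0,0]],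
    ![![1,0,0,0,0,0,0,0,1], ![1,0,0,0,0,0,0,1,0], ![0,1,0,0,0,0,0,0,1],
      ![0,1,0,0,0,0,1,0,0], ![0,0,1,0,0,0,0,1,0], ![0,0,1,0,0,0,1,0,0]],
    ![![1,0,0,0,1,0,0,0,0], ![1,0,0,0,0,1,0,0,0], ![0,1,0,1,0,0,0,0,0],
      ![0,1,0,0,0,1,0,0,0], ![0,0,1,1,0,0,0,0,0], ![0,0,1,0,1,0,0,0,0]]]

lemma tb_cover : ∀ a0 a1 a2 a3 a4 a5 a6 a7 a8 : Fin 2,
    ((a0 : ℕ) + (a1 + a2) ≤ 1 ∧ (a3 : ℕ) + (a4 + a5) ≤ 1 ∧ (a6 : ℕ) + (a7 + a8) ≤ 1) ∧
      ((a0 : ℕ) + (a3 + a6) ≤ 1 ∧ (a1 : ℕ) + (a4 + a7) ≤ 1 ∧ (a2 : ℕ) + (a5 + a8) ≤ 1) →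
    (((a0 : ℕ) + a1 + a2 + a3 + a4 + a5 + a6 + a7 + a8 = 3 →
      ∃ i, tb0 i = ![(a0 : ℕ), a1, a2, a3, a4, a5, a6, a7, a8]) ∧
    ((a0 : ℕ) + a1 + a2 + a3 + a4 + a5 + a6 + a7 + a8 + 1 = 3 →
      ∃ i : Fin 3 × Fin 6, tb1 i.1 i.2 = ![(a0 : ℕ), a1, a2, a3, a4, a5, a6, a7, a8])) := by
  decide +kernel

lemma tb_cover' {d : Fin 9 → ℕ} (hd : d ∈ T9) :
    (∑ l, d l = 3 → ∃ i, tb0 i = d) ∧ (∑ l, d l + 1 = 3 → ∃ i : Fin 3 × Fin 6, tb1 i.1 i.2 = d) := by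
  rw [mem_T9] at hd
  have h := tb_cover ⟨d 0, by omega⟩ ⟨d 1, by omega⟩ ⟨d 2, by omega⟩ ⟨d 3, by omega⟩
    ⟨d 4, by omega⟩ ⟨d 5, by omega⟩ ⟨d 6, by omega⟩ ⟨d 7, by omega⟩ ⟨d 8, by omega⟩ hd
  have e : ![d 0, d 1, d 2, d 3, d 4, d 5, d 6, d 7, d 8] = d := by
    funext l; fin_cases l <;> rfl
  simp only [e] at h
  rw [sum9]
  exact h

theorem base_upper {r : ℝ} (hr : 0 < r) (hrr : r ^ 2 = 1 / 3) :
    ∃ C : ℝ, 0 < C ∧ ∀ n : ℕ, 1 ≤ n → cnt (Fin n) T9 (c9 r) ≤ C * Lv 3 (2 * r) (3 * r) n := by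
  have hc : ∀ d, 0 ≤ c9 r d := fun d => by unfold c9; positivity
  refine laplace T9 (c9 r) hc 3 ?_ (fun _ => r) (fun _ => hr.le) ?_
    _ _ (1 / 48) (by positivity) (by positivity) (by norm_num) ?_ ?_
  · intro d hd
    rw [mem_T9] at hd
    rw [sum9]; omega
  · simp [hrr]; norm_num
  · refine (fT_le_tbl _ hc (fun i : Fin 3 × Fin 6 => tb1 i.1 i.2)
      (fun d hd => (tb_cover' (mem_filter.mp hd).1).2 (mem_filter.mp hd).2)
      (fun _ => hr.le)).trans (le_of_eq ?_)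
    have : ∀ i : Fin 3 × Fin 6, c9 r (tb1 i.1 i.2) * mono (tb1 i.1 i.2) (fun _ => r) = r ^ 4 := by
      rintro ⟨i, j⟩
      fin_cases i <;> fin_cases j <;> simp [c9, mono, prod9, tb1] <;> ring
    rw [sum_congr rfl (fun i _ => this i)]
    simp only [sum_const, card_univ, Fintype.card_prod, Fintype.card_fin, nsmul_eq_mul]
    push_cast
    linear_combination (18 * r ^ 2) * hrr
  · intro y hy
    refine (fT_le_tbl _ hc tb0
      (fun d hd => (tb_cover' (mem_filter.mp hd).1).1 (mem_filter.mp hd).2) hy).trans ?_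
    have key := ineq_per (hy 0) (hy 1) (hy 2) (hy 3) (hy 4) (hy 5) (hy 6) (hy 7) (hy 8) hr.le hrr
    refine le_trans (le_of_eq ?_) (key.trans (le_of_eq ?_))
    · simp [Fin.sum_univ_six, c9, mono, prod9, tb0, per]
    · congr 2
      rw [sum9, sum9]
      push_cast
      ring

variable {V : Type} [Fintype V] [DecidableEq V]

lemma deg_split3 {A B C D : SimpleGraph V} (h : A ≤ B ⊔ C ⊔ D) (h1 : Disjoint B C)
    (h2 : Disjoint (B ⊔ C) D) (v : V) :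
    deg A v = deg (A ⊓ B) v + (deg (A ⊓ C) v + deg (A ⊓ D) v) := by
  rw [deg_split h h2, deg_split (A := A ⊓ (B ⊔ C)) inf_le_right h1, inf_assoc, inf_assoc,
    inf_eq_right.mpr (le_sup_left (a := B) (b := C)),
    inf_eq_right.mpr (le_sup_right (a := B) (b := C)), add_assoc]

theorem base :
    ∃ C : ℝ, 0 < C ∧ ∃ N : ℕ, ∀ n ≥ N,
      Lv 3 (PD 3) √((3 : ℕ) : ℝ) n ≤ C * (eset (Fin n) 3).card := by
  classical
  obtain ⟨s, hs⟩ : ∃ s, s = √((3 : ℕ) : ℝ) := ⟨_, rfl⟩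
  have hs0 : 0 < s := by rw [hs]; positivity
  have hss : s ^ 2 = 3 := by rw [hs, sq_sqrt (by positivity)]; norm_num
  obtain ⟨r, hrs⟩ : ∃ r, r = s / 3 := ⟨_, rfl⟩
  have hr : 0 < r := by rw [hrs]; positivity
  have hrr : r ^ 2 = 1 / 3 := by rw [hrs, div_pow, hss]; norm_num
  obtain ⟨C2, hC2, h2⟩ := base_upper hr hrr
  obtain ⟨C1, hC1, N1, h1⟩ := avoid_lower hr 0
  obtain ⟨C3, hC3, N3, h3⟩ := first_moment hr 2
  refine ⟨(C1 * C3 * C3) ^ 2 * C2, by positivity, max (max N1 N3) 1, fun n hn => ?_⟩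
  have hn1 : N1 ≤ n := le_of_max_le_left (le_of_max_le_left hn)
  have hn3 : N3 ≤ n := le_of_max_le_right (le_of_max_le_left hn)
  have hn0 : 1 ≤ n := le_of_max_le_right hn
  set A2 := (mset (⊥ : SimpleGraph (Fin n))).sigma (fun G => mset G) with hA2
  set A := A2.sigma (fun x => mset (x.1 ⊔ x.2)) with hA
  have hmemA2 : ∀ x ∈ A2, IsM x.1 ∧ IsM x.2 ∧ Disjoint x.1 x.2 := by
    intro x hx
    rw [hA2, mem_sigma, mem_mset, mem_mset] at hx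
    exact ⟨hx.1.1, hx.2⟩
  have hmemA : ∀ x ∈ A, (IsM x.1.1 ∧ IsM x.1.2 ∧ Disjoint x.1.1 x.1.2) ∧ IsM x.2 ∧
      Disjoint (x.1.1 ⊔ x.1.2) x.2 := by
    intro x hx
    rw [hA, mem_sigma, mem_mset] at hx
    exact ⟨hmemA2 _ hx.1, hx.2⟩
  have f0 := h1 n hn1 ⊥ (fun v => (deg_bot v).le)
  have f1 := h3 n hn3 (mset (⊥ : SimpleGraph (Fin n))) (fun G => G) (wt r)
    (fun G hG v => ((mem_mset.mp hG).1 v).trans (by norm_num)) (fun G _ => wt_nonneg hr.le G)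
  rw [← hA2] at f1
  have f1' := h3 n hn3 A2 (fun x => x.1 ⊔ x.2) (fun x => wt r x.1 * wt r x.2)
    (fun x hx v => (deg_sup_le _ _ v).trans
      (add_le_add ((hmemA2 x hx).1 v) ((hmemA2 x hx).2.1 v)))
    (fun x _ => mul_nonneg (wt_nonneg hr.le _) (wt_nonneg hr.le _))
  rw [← hA] at f1'
  have f2 := cauchy A (eset (Fin n) 3) (fun x => x.1.1 ⊔ x.1.2 ⊔ x.2)
    (fun x hx => mem_eset.mpr ⟨_, x.2, ⟨_, x.1.2, ⟨⊥, x.1.1, rfl, (hmemA x hx).1.1,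
      (bot_sup_eq _).symm⟩, (hmemA x hx).1.2.1, rfl⟩, (hmemA x hx).2.1, rfl⟩)
    (fun x => wt r x.1.1 * wt r x.1.2 * wt r x.2)
  have hc : ∀ d, 0 ≤ c9 r d := fun d => by unfold c9; positivity
  have f3 : ∑ p ∈ (A ×ˢ A).filter
      (fun p => p.1.1.1 ⊔ p.1.1.2 ⊔ p.1.2 = p.2.1.1 ⊔ p.2.1.2 ⊔ p.2.2),
      (wt r p.1.1.1 * wt r p.1.1.2 * wt r p.1.2) * (wt r p.2.1.1 * wt r p.2.1.2 * wt r p.2.2) ≤
        cnt (Fin n) T9 (c9 r) := by
    have hdeg : ∀ p ∈ (A ×ˢ A).filter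
        (fun p => p.1.1.1 ⊔ p.1.1.2 ⊔ p.1.2 = p.2.1.1 ⊔ p.2.1.2 ⊔ p.2.2), ∀ v,
        (∀ X ≤ p.1.1.1 ⊔ p.1.1.2 ⊔ p.1.2,
          deg X v = deg (X ⊓ p.2.1.1) v + (deg (X ⊓ p.2.1.2) v + deg (X ⊓ p.2.2) v)) ∧
        (∀ X ≤ p.2.1.1 ⊔ p.2.1.2 ⊔ p.2.2,
          deg X v = deg (p.1.1.1 ⊓ X) v + (deg (p.1.1.2 ⊓ X) v + deg (p.1.2 ⊓ X) v)) := by
      intro p hp v
      rw [mem_filter, mem_product] at hp
      obtain ⟨⟨hx, hy⟩, he⟩ := hp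
      refine ⟨fun X hX => deg_split3 (he ▸ hX) (hmemA _ hy).1.2.2 (hmemA _ hy).2.2 v,
        fun X hX => ?_⟩
      rw [inf_comm p.1.1.1, inf_comm p.1.1.2, inf_comm p.1.2]
      exact deg_split3 (he.symm ▸ hX) (hmemA _ hx).1.2.2 (hmemA _ hx).2.2 v
    have l1 : ∀ X Y Z : SimpleGraph (Fin n), X ≤ X ⊔ Y ⊔ Z :=
      fun X Y Z => le_sup_left.trans le_sup_left
    have l2 : ∀ X Y Z : SimpleGraph (Fin n), Y ≤ X ⊔ Y ⊔ Z :=
      fun X Y Z => le_sup_right.trans le_sup_left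
    have l3 : ∀ X Y Z : SimpleGraph (Fin n), Z ≤ X ⊔ Y ⊔ Z := fun X Y Z => le_sup_right
    apply le_cnt _ (fun p => ![p.1.1.1 ⊓ p.2.1.1, p.1.1.1 ⊓ p.2.1.2, p.1.1.1 ⊓ p.2.2,
      p.1.1.2 ⊓ p.2.1.1, p.1.1.2 ⊓ p.2.1.2, p.1.1.2 ⊓ p.2.2,
      p.1.2 ⊓ p.2.1.1, p.1.2 ⊓ p.2.1.2, p.1.2 ⊓ p.2.2]) _ _ _ hc
    · intro p hp v
      have hd := hdeg p hp v
      rw [mem_filter, mem_product] at hp
      obtain ⟨⟨hx, hy⟩, -⟩ := hp
      rw [mem_T9]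
      simp only [Matrix.cons_val_zero, Matrix.cons_val_one, Matrix.cons_val]
      rw [← hd.1 _ (l1 _ _ _), ← hd.1 _ (l2 _ _ _), ← hd.1 _ (l3 _ _ _),
        ← hd.2 _ (l1 _ _ _), ← hd.2 _ (l2 _ _ _), ← hd.2 _ (l3 _ _ _)]
      exact ⟨⟨(hmemA _ hx).1.1 v, (hmemA _ hx).1.2.1 v, (hmemA _ hx).2.1 v⟩,
        (hmemA _ hy).1.1 v, (hmemA _ hy).1.2.1 v, (hmemA _ hy).2.1 v⟩
    · intro p hp
      unfold wt c9
      simp only [← prod_mul_distrib]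
      apply le_of_eq
      apply prod_congr rfl
      intro v _
      have hd := hdeg p hp v
      simp only [Matrix.cons_val_zero, Matrix.cons_val_one, Matrix.cons_val]
      rw [← hd.1 _ (l1 _ _ _), ← hd.1 _ (l2 _ _ _), ← hd.1 _ (l3 _ _ _),
        ← hd.2 _ (l1 _ _ _), ← hd.2 _ (l2 _ _ _), ← hd.2 _ (l3 _ _ _)]
    · rintro ⟨⟨⟨a1, a2⟩, a3⟩, ⟨⟨b1, b2⟩, b3⟩⟩ hp ⟨⟨⟨a1', a2'⟩, a3'⟩, ⟨⟨b1', b2'⟩, b3'⟩⟩ hq h
      have hp' := (mem_filter.mp hp).2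
      have hq' := (mem_filter.mp hq).2
      simp only at hp' hq'
      have e0 : a1 ⊓ b1 = a1' ⊓ b1' := congrFun h 0
      have e1 : a1 ⊓ b2 = a1' ⊓ b2' := congrFun h 1
      have e2 : a1 ⊓ b3 = a1' ⊓ b3' := congrFun h 2
      have e3 : a2 ⊓ b1 = a2' ⊓ b1' := congrFun h 3
      have e4 : a2 ⊓ b2 = a2' ⊓ b2' := congrFun h 4
      have e5 : a2 ⊓ b3 = a2' ⊓ b3' := congrFun h 5
      have e6 : a3 ⊓ b1 = a3' ⊓ b1' := congrFun h 6
      have e7 : a3 ⊓ b2 = a3' ⊓ b2' := congrFun h 7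
      have e8 : a3 ⊓ b3 = a3' ⊓ b3' := congrFun h 8
      have r1 : ∀ X Y Z W : SimpleGraph (Fin n), X ≤ Y ⊔ Z ⊔ W →
          X = X ⊓ Y ⊔ X ⊓ Z ⊔ X ⊓ W := fun X Y Z W hX => by
        rw [← inf_sup_left, ← inf_sup_left, inf_eq_left.mpr hX]
      have r2 : ∀ X Y Z W : SimpleGraph (Fin n), X ≤ Y ⊔ Z ⊔ W →
          X = Y ⊓ X ⊔ Z ⊓ X ⊔ W ⊓ X := fun X Y Z W hX => by
        rw [← inf_sup_right, ← inf_sup_right, inf_eq_right.mpr hX]
      have g1 : a1 = a1' := by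
        rw [r1 a1 b1 b2 b3 (hp' ▸ l1 _ _ _), r1 a1' b1' b2' b3' (hq' ▸ l1 _ _ _), e0, e1, e2]
      have g2 : a2 = a2' := by
        rw [r1 a2 b1 b2 b3 (hp' ▸ l2 _ _ _), r1 a2' b1' b2' b3' (hq' ▸ l2 _ _ _), e3, e4, e5]
      have g3 : a3 = a3' := by
        rw [r1 a3 b1 b2 b3 (hp' ▸ l3 _ _ _), r1 a3' b1' b2' b3' (hq' ▸ l3 _ _ _), e6, e7, e8]
      have g4 : b1 = b1' := by
        rw [r2 b1 a1 a2 a3 (hp'.symm ▸ l1 _ _ _), r2 b1' a1' a2' a3' (hq'.symm ▸ l1 _ _ _),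
          e0, e3, e6]
      have g5 : b2 = b2' := by
        rw [r2 b2 a1 a2 a3 (hp'.symm ▸ l2 _ _ _), r2 b2' a1' a2' a3' (hq'.symm ▸ l2 _ _ _),
          e1, e4, e7]
      have g6 : b3 = b3' := by
        rw [r2 b3 a1 a2 a3 (hp'.symm ▸ l3 _ _ _), r2 b3' a1' a2' a3' (hq'.symm ▸ l3 _ _ _),
          e2, e5, e8]
      rw [g1, g2, g3, g4, g5, g6]
  have f4 := h2 n hn0
  have id : (Lv 1 1 r n * Lv 1 1 r n * Lv 1 1 r n) ^ 2 =
      Lv 3 (2 * r) (3 * r) n * Lv 3 (PD 3) √((3 : ℕ) : ℝ) n := by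
    rw [sq, Lv_mul, Lv_mul, Lv_mul, Lv_mul]
    congr 1
    · unfold PD
      rw [← hs, hrs]
      simp only [Nat.factorial]
      push_cast
      linear_combination (-(s ^ 2 + 3) / 9) * hss
    · rw [← hs, hrs]; ring
  have p2 := Lv_pos 1 one_pos r hn0
  have p3 := Lv_pos 3 (P := 2 * r) (by positivity) (3 * r) hn0
  generalize Lv 1 1 r n = L1 at *
  generalize Lv 3 (2 * r) (3 * r) n = LB at *
  generalize Lv 3 (PD 3) √((3 : ℕ) : ℝ) n = Lc at *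
  have g1 : L1 * L1 * L1 ≤ C1 * C3 * C3 * ∑ x ∈ A, wt r x.1.1 * wt r x.1.2 * wt r x.2 := by
    calc L1 * L1 * L1 ≤ (C1 * ∑ M ∈ mset (⊥ : SimpleGraph (Fin n)), wt r M) * L1 * L1 := by gcongr
      _ = C1 * ((∑ M ∈ mset (⊥ : SimpleGraph (Fin n)), wt r M) * L1) * L1 := by ring
      _ ≤ C1 * (C3 * ∑ x ∈ A2, wt r x.1 * wt r x.2) * L1 := by gcongr
      _ = C1 * C3 * ((∑ x ∈ A2, wt r x.1 * wt r x.2) * L1) := by ring
      _ ≤ C1 * C3 * (C3 * ∑ x ∈ A, wt r x.1.1 * wt r x.1.2 * wt r x.2) := by gcongr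
      _ = _ := by ring
  have g2 : LB * Lc ≤ LB * ((C1 * C3 * C3) ^ 2 * C2 * (eset (Fin n) 3).card) := by
    calc LB * Lc = (L1 * L1 * L1) ^ 2 := id.symm
      _ ≤ (C1 * C3 * C3 * ∑ x ∈ A, wt r x.1.1 * wt r x.1.2 * wt r x.2) ^ 2 := by gcongr
      _ = (C1 * C3 * C3) ^ 2 * (∑ x ∈ A, wt r x.1.1 * wt r x.1.2 * wt r x.2) ^ 2 := by ring
      _ ≤ (C1 * C3 * C3) ^ 2 * ((eset (Fin n) 3).card * (C2 * LB)) := by
          apply mul_le_mul_of_nonneg_left _ (by positivity)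
          exact f2.trans (mul_le_mul_of_nonneg_left (f3.trans f4) (by positivity))
      _ = _ := by ring
  exact le_of_mul_le_mul_left g2 p3

end Pool.Agent.MP_c4b7b1_co

end

section

/-! The induction step: adding one weighted matching. -/

namespace Pool.Agent.MP_c4b7b1_co

open Finset Real

/-- vertex types for two decompositions into a graph of degree at most `k` and a matching -/
def T4 (k : ℕ) : Finset (Fin 4 → ℕ) :=
  (Fintype.piFinset (fun _ => range (k + 1))).filter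
    (fun d => d 1 + d 3 ≤ 1 ∧ d 2 + d 3 ≤ 1 ∧ d 0 + d 2 ≤ k ∧ d 0 + d 1 ≤ k)

/-- weights of the types -/
noncomputable def c4 (ν : ℝ) (d : Fin 4 → ℕ) : ℝ := ν ^ (1 - (d 1 + d 3)) * ν ^ (1 - (d 2 + d 3))

lemma mem_T4 {k : ℕ} (hk : 1 ≤ k) {d : Fin 4 → ℕ} :
    d ∈ T4 k ↔ d 1 + d 3 ≤ 1 ∧ d 2 + d 3 ≤ 1 ∧ d 0 + d 2 ≤ k ∧ d 0 + d 1 ≤ k := by
  simp only [T4, mem_filter, Fintype.mem_piFinset, mem_range, and_iff_right_iff_imp]
  intro h l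
  fin_cases l <;> simp <;> omega

lemma vec4_eq {a b c e : ℕ} {d : Fin 4 → ℕ} (h0 : d 0 = a) (h1 : d 1 = b) (h2 : d 2 = c)
    (h3 : d 3 = e) : ![a, b, c, e] = d := by
  funext l; fin_cases l <;> simp [h0, h1, h2, h3]

theorem step_upper (j : ℕ) :
    ∃ C : ℝ, 0 < C ∧ ∀ n : ℕ, 1 ≤ n →
      cnt (Fin n) (T4 (j + 2)) (c4 (√((j + 3 : ℕ) : ℝ) - √((j + 2 : ℕ) : ℝ))) ≤
        C * Lv (j + 3) (PD (j + 2) ^ 2 / PD (j + 3)) √((j + 3 : ℕ) : ℝ) n := by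
  classical
  obtain ⟨k, hk⟩ : ∃ k : ℝ, k = ((j + 2 : ℕ) : ℝ) := ⟨_, rfl⟩
  have hk' : k = j + 2 := by rw [hk]; push_cast; ring
  have hk1 : ((j + 3 : ℕ) : ℝ) = k + 1 := by rw [hk']; push_cast; ring
  have hj0 : (0 : ℝ) ≤ j := by positivity
  have hk2 : 2 ≤ k := by linarith
  obtain ⟨s, hs⟩ : ∃ s, s = √((j + 3 : ℕ) : ℝ) := ⟨_, rfl⟩
  obtain ⟨ρ, hρ⟩ : ∃ ρ, ρ = √((j + 2 : ℕ) : ℝ) := ⟨_, rfl⟩
  have hs0 : 0 < s := by rw [hs]; positivity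
  have hρ0 : 0 < ρ := by rw [hρ]; positivity
  have hss : s ^ 2 = k + 1 := by rw [hs, sq_sqrt (by positivity), hk1]
  have hρρ : ρ ^ 2 = k := by rw [hρ, sq_sqrt (by positivity), hk]
  have hν : 0 ≤ s - ρ := by
    have : ρ ≤ s := le_of_pow_le_pow_left₀ (n := 2) (by norm_num) hs0.le (by linarith)
    linarith
  have hc : ∀ d, 0 ≤ c4 (s - ρ) d := fun d => by unfold c4; positivity
  obtain ⟨F, hF⟩ : ∃ F : ℝ, F = (j.factorial : ℝ) := ⟨_, rfl⟩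
  have hF0 : 0 < F := by rw [hF]; positivity
  have f1 : ((j + 1).factorial : ℝ) = (k - 1) * F := by
    rw [Nat.factorial_succ, hF, hk']; push_cast; ring
  have f2 : ((j + 2).factorial : ℝ) = k * ((k - 1) * F) := by
    rw [Nat.factorial_succ, Nat.cast_mul, f1, hk]
  have f3 : ((j + 3).factorial : ℝ) = (k + 1) * (k * ((k - 1) * F)) := by
    rw [Nat.factorial_succ, Nat.cast_mul, f2, hk1]
  have hkm : 0 < k - 1 := by linarith
  have hP : PD (j + 2) ^ 2 / PD (j + 3) = k ^ (j + 2) * (k + 1) / (k * ((k - 1) * F) * s ^ (j + 3)) := by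
    unfold PD
    rw [← hs, ← hρ, f2, f3, div_pow, ← pow_mul, mul_comm (j + 2) 2, pow_mul, hρρ]
    field_simp
  rw [← hs, ← hρ, hP]
  have hu0 : ∀ l, 0 ≤ (![k / s, ρ / s, ρ / s, 1 / s] : Fin 4 → ℝ) l := by
    intro l; fin_cases l <;> simp <;> positivity
  refine laplace (T4 (j + 2)) (c4 (s - ρ)) hc (j + 3) ?_ ![k / s, ρ / s, ρ / s, 1 / s] hu0 ?_
    _ s (1 / (2000 * k ^ 2)) (by positivity) (by positivity) ?_ ?_ ?_
  · intro d hd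
    rw [mem_T4 (by omega)] at hd
    rw [Fin.sum_univ_four]; omega
  · rw [Fin.sum_univ_four, hk1]
    simp only [Matrix.cons_val_zero, Matrix.cons_val_one, Matrix.cons_val, div_pow, hss, hρρ]
    field_simp; ring
  · apply one_div_le_one_div_of_le (by norm_num); nlinarith
  · refine (fT_le_tbl _ hc (![![j + 1, 0, 0, 1], ![j, 1, 1, 0], ![j + 1, 1, 0, 0],
      ![j + 1, 0, 1, 0], ![j + 2, 0, 0, 0]] : Fin 5 → Fin 4 → ℕ) ?_ hu0).trans (le_of_eq ?_)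
    · intro d hd
      rw [mem_filter, mem_T4 (by omega), Fin.sum_univ_four] at hd
      have : (d 3 = 1) ∨ (d 3 = 0 ∧ d 1 = 1 ∧ d 2 = 1) ∨ (d 3 = 0 ∧ d 1 = 1 ∧ d 2 = 0) ∨
        (d 3 = 0 ∧ d 1 = 0 ∧ d 2 = 1) ∨ (d 3 = 0 ∧ d 1 = 0 ∧ d 2 = 0) := by omega
      rcases this with h | h | h | h | h
      · exact ⟨0, vec4_eq (by omega) (by omega) (by omega) (by omega)⟩
      · exact ⟨1, vec4_eq (by omega) (by omega) (by omega) (by omega)⟩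
      · exact ⟨2, vec4_eq (by omega) (by omega) (by omega) (by omega)⟩
      · exact ⟨3, vec4_eq (by omega) (by omega) (by omega) (by omega)⟩
      · exact ⟨4, vec4_eq (by omega) (by omega) (by omega) (by omega)⟩
    · simp only [Fin.sum_univ_five, c4, mono, Fin.prod_univ_four, Matrix.cons_val_zero,
        Matrix.cons_val_one, Matrix.cons_val, f1, f2, ← hF]
      norm_num
      have e : k + 1 = s ^ 2 := hss.symm
      rw [e]
      simp only [div_pow, pow_succ]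
      field_simp
      rw [← hρρ]
      ring
  · intro y hy
    refine (fT_le_tbl _ hc (![![j + 2, 0, 0, 1], ![j + 1, 1, 1, 0]] : Fin 2 → Fin 4 → ℕ)
      ?_ hy).trans ?_
    · intro d hd
      rw [mem_filter, mem_T4 (by omega), Fin.sum_univ_four] at hd
      have : (d 3 = 1) ∨ (d 3 = 0) := by omega
      rcases this with h | h
      · exact ⟨0, vec4_eq (by omega) (by omega) (by omega) (by omega)⟩
      · exact ⟨1, vec4_eq (by omega) (by omega) (by omega) (by omega)⟩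
    · obtain ⟨a, ha⟩ : ∃ a, a = y 0 * s / k := ⟨_, rfl⟩
      obtain ⟨b, hb⟩ : ∃ b, b = y 1 * s / ρ := ⟨_, rfl⟩
      obtain ⟨c, hc'⟩ : ∃ c, c = y 2 * s / ρ := ⟨_, rfl⟩
      obtain ⟨e, he⟩ : ∃ e, e = y 3 * s := ⟨_, rfl⟩
      have ha0 : 0 ≤ a := by have := hy 0; rw [ha]; positivity
      have hb0 : 0 ≤ b := by have := hy 1; rw [hb]; positivity
      have hc0 : 0 ≤ c := by have := hy 2; rw [hc']; positivity
      have he0 : 0 ≤ e := by have := hy 3; rw [he]; positivity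
      have y0 : y 0 = k / s * a := by rw [ha]; field_simp
      have y1 : y 1 = ρ / s * b := by rw [hb]; field_simp
      have y2 : y 2 = ρ / s * c := by rw [hc']; field_simp
      have y3 : y 3 = 1 / s * e := by rw [he]; field_simp
      have key := ineq_step_norm (j + 1) (by omega) ha0 hb0 hc0 he0 k
        (by rw [hk']; push_cast; ring)
      refine le_trans (le_of_eq ?_) ((mul_le_mul_of_nonneg_left key
        (a := k ^ (j + 2) * (k + 1) / (k * ((k - 1) * F) * s ^ (j + 3)))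
        (by positivity)).trans (le_of_eq ?_))
      · simp only [Fin.sum_univ_two, c4, mono, Fin.prod_univ_four, Matrix.cons_val_zero,
          Matrix.cons_val_one, Matrix.cons_val, f1, f2, y0, y1, y2, y3]
        norm_num
        simp only [mul_pow, div_pow, pow_succ]
        field_simp
        rw [← hρρ]
      · congr 2
        simp only [Fin.sum_univ_four, Matrix.cons_val_zero,
          Matrix.cons_val_one, Matrix.cons_val, y0, y1, y2, y3, hk1]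
        have e1 : k + 1 = s ^ 2 := hss.symm
        have e2 : ∀ x z : ℝ, x * z - x = x * (z - 1) := fun x z => by ring
        simp only [e2, mul_pow, div_pow, hss, hρρ]
        field_simp
        ring

theorem step (j : ℕ)
    (ih : ∃ C : ℝ, 0 < C ∧ ∃ N : ℕ, ∀ n ≥ N,
      Lv (j + 2) (PD (j + 2)) √((j + 2 : ℕ) : ℝ) n ≤ C * (eset (Fin n) (j + 2)).card) :
    ∃ C : ℝ, 0 < C ∧ ∃ N : ℕ, ∀ n ≥ N,
      Lv (j + 3) (PD (j + 3)) √((j + 3 : ℕ) : ℝ) n ≤ C * (eset (Fin n) (j + 3)).card := by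
  classical
  obtain ⟨C1, hC1, N1, h1⟩ := ih
  obtain ⟨C2, hC2, h2⟩ := step_upper j
  set ν := √((j + 3 : ℕ) : ℝ) - √((j + 2 : ℕ) : ℝ) with hνdef
  have hν : 0 < ν := by
    have : √((j + 2 : ℕ) : ℝ) < √((j + 3 : ℕ) : ℝ) :=
      sqrt_lt_sqrt (by positivity) (by exact_mod_cast (by omega : j + 2 < j + 3))
    linarith
  obtain ⟨C3, hC3, N3, h3⟩ := first_moment hν (j + 2)
  refine ⟨(C1 * C3) ^ 2 * C2, by positivity, max (max N1 N3) 1, fun n hn => ?_⟩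
  have hn1 : N1 ≤ n := le_of_max_le_left (le_of_max_le_left hn)
  have hn3 : N3 ≤ n := le_of_max_le_right (le_of_max_le_left hn)
  have hn0 : 1 ≤ n := le_of_max_le_right hn
  set A := (eset (Fin n) (j + 2)).sigma (fun G => mset G) with hA
  have hmemA : ∀ x ∈ A, UM (j + 2) x.1 ∧ IsM x.2 ∧ Disjoint x.1 x.2 := by
    intro x hx
    rw [hA, mem_sigma, mem_eset, mem_mset] at hx
    exact hx
  have f1 := h3 n hn3 (eset (Fin n) (j + 2)) (fun G => G) (fun _ => 1)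
    (fun G hG => (mem_eset.mp hG).deg_le) (fun _ _ => zero_le_one)
  simp only [sum_const, nsmul_eq_mul, mul_one, one_mul] at f1
  rw [← hA] at f1
  have f2 := cauchy A (eset (Fin n) (j + 3)) (fun x => x.1 ⊔ x.2)
    (fun x hx => mem_eset.mpr ⟨x.1, x.2, (hmemA x hx).1, (hmemA x hx).2.1, rfl⟩)
    (fun x => wt ν x.2)
  have hc : ∀ d, 0 ≤ c4 ν d := fun d => by unfold c4; positivity
  have f3 : ∑ p ∈ (A ×ˢ A).filter (fun p => p.1.1 ⊔ p.1.2 = p.2.1 ⊔ p.2.2),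
      wt ν p.1.2 * wt ν p.2.2 ≤ cnt (Fin n) (T4 (j + 2)) (c4 ν) := by
    have hdeg : ∀ p ∈ (A ×ˢ A).filter (fun p => p.1.1 ⊔ p.1.2 = p.2.1 ⊔ p.2.2), ∀ v,
        deg p.1.2 v = deg (p.1.2 ⊓ p.2.1) v + deg (p.1.2 ⊓ p.2.2) v ∧
        deg p.2.2 v = deg (p.1.1 ⊓ p.2.2) v + deg (p.1.2 ⊓ p.2.2) v ∧
        deg p.1.1 v = deg (p.1.1 ⊓ p.2.1) v + deg (p.1.1 ⊓ p.2.2) v ∧
        deg p.2.1 v = deg (p.1.1 ⊓ p.2.1) v + deg (p.1.2 ⊓ p.2.1) v := by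
      intro p hp v
      rw [mem_filter, mem_product] at hp
      obtain ⟨⟨hx, hy⟩, he⟩ := hp
      have d1 := (hmemA _ hx).2.2
      have d2 := (hmemA _ hy).2.2
      refine ⟨deg_split (he ▸ le_sup_right) d2 v, ?_, deg_split (he ▸ le_sup_left) d2 v, ?_⟩
      · rw [inf_comm p.1.1, inf_comm p.1.2]; exact deg_split (he.symm ▸ le_sup_right) d1 v
      · rw [inf_comm p.1.1, inf_comm p.1.2]; exact deg_split (he.symm ▸ le_sup_left) d1 v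
    apply le_cnt _ (fun p => ![p.1.1 ⊓ p.2.1, p.1.2 ⊓ p.2.1, p.1.1 ⊓ p.2.2, p.1.2 ⊓ p.2.2])
      _ _ _ hc
    · intro p hp v
      have hd := hdeg p hp v
      rw [mem_filter, mem_product] at hp
      obtain ⟨⟨hx, hy⟩, -⟩ := hp
      have a1 := (hmemA _ hx).1.deg_le v
      have a2 := (hmemA _ hy).1.deg_le v
      have a3 := (hmemA _ hx).2.1 v
      have a4 := (hmemA _ hy).2.1 v
      rw [mem_T4 (by omega)]
      simp only [Matrix.cons_val_zero, Matrix.cons_val_one, Matrix.cons_val]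
      omega
    · intro p hp
      unfold wt c4
      rw [← prod_mul_distrib]
      apply le_of_eq
      apply prod_congr rfl
      intro v _
      have hd := hdeg p hp v
      simp only [Matrix.cons_val_zero, Matrix.cons_val_one, Matrix.cons_val]
      rw [← hd.1, ← hd.2.1]
    · rintro ⟨⟨G1, M1⟩, ⟨G2, M2⟩⟩ hp ⟨⟨G1', M1'⟩, ⟨G2', M2'⟩⟩ hq h
      have hp' := (mem_filter.mp hp).2
      have hq' := (mem_filter.mp hq).2
      simp only at hp' hq'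
      have e0 : G1 ⊓ G2 = G1' ⊓ G2' := congrFun h 0
      have e1 : M1 ⊓ G2 = M1' ⊓ G2' := congrFun h 1
      have e2 : G1 ⊓ M2 = G1' ⊓ M2' := congrFun h 2
      have e3 : M1 ⊓ M2 = M1' ⊓ M2' := congrFun h 3
      have r1 : ∀ X Y Z : SimpleGraph (Fin n), X ≤ Y ⊔ Z → X = X ⊓ Y ⊔ X ⊓ Z := fun X Y Z hX => by
        rw [← inf_sup_left, inf_eq_left.mpr hX]
      have r2 : ∀ X Y Z : SimpleGraph (Fin n), X ≤ Y ⊔ Z → X = Y ⊓ X ⊔ Z ⊓ X := fun X Y Z hX => by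
        rw [← inf_sup_right, inf_eq_right.mpr hX]
      have g1 : G1 = G1' := by
        rw [r1 G1 G2 M2 (hp' ▸ le_sup_left), r1 G1' G2' M2' (hq' ▸ le_sup_left), e0, e2]
      have g2 : M1 = M1' := by
        rw [r1 M1 G2 M2 (hp' ▸ le_sup_right), r1 M1' G2' M2' (hq' ▸ le_sup_right), e1, e3]
      have g3 : G2 = G2' := by
        rw [r2 G2 G1 M1 (hp'.symm ▸ le_sup_left), r2 G2' G1' M1' (hq'.symm ▸ le_sup_left), e0, e1]
      have g4 : M2 = M2' := by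
        rw [r2 M2 G1 M1 (hp'.symm ▸ le_sup_right), r2 M2' G1' M1' (hq'.symm ▸ le_sup_right), e2, e3]
      rw [g1, g2, g3, g4]
  have f4 := h2 n hn0
  have f5 := h1 n hn1
  have hPj2 := PD_pos (k := j + 2) (by omega)
  have hPj3 := PD_pos (k := j + 3) (by omega)
  have id : (Lv (j + 2) (PD (j + 2)) √((j + 2 : ℕ) : ℝ) n * Lv 1 1 ν n) ^ 2 =
      Lv (j + 3) (PD (j + 2) ^ 2 / PD (j + 3)) √((j + 3 : ℕ) : ℝ) n *
        Lv (j + 3) (PD (j + 3)) √((j + 3 : ℕ) : ℝ) n := by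
    rw [sq, Lv_mul, Lv_mul, Lv_mul]
    congr 1
    · field_simp
    · rw [hνdef]; ring
  have p1 := Lv_pos (j + 2) hPj2 √((j + 2 : ℕ) : ℝ) hn0
  have p2 := Lv_pos 1 one_pos ν hn0
  have p3 := Lv_pos (j + 3) (P := PD (j + 2) ^ 2 / PD (j + 3)) (by positivity)
    √((j + 3 : ℕ) : ℝ) hn0
  generalize Lv (j + 2) (PD (j + 2)) √((j + 2 : ℕ) : ℝ) n = La at *
  generalize Lv 1 1 ν n = L1 at *
  generalize Lv (j + 3) (PD (j + 2) ^ 2 / PD (j + 3)) √((j + 3 : ℕ) : ℝ) n = LB at *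
  generalize Lv (j + 3) (PD (j + 3)) √((j + 3 : ℕ) : ℝ) n = Lc at *
  have g1 : La * L1 ≤ C1 * C3 * ∑ x ∈ A, wt ν x.2 := by
    calc La * L1 ≤ C1 * (eset (Fin n) (j + 2)).card * L1 := by gcongr
      _ = C1 * ((eset (Fin n) (j + 2)).card * L1) := by ring
      _ ≤ C1 * (C3 * ∑ x ∈ A, wt ν x.2) := by gcongr
      _ = _ := by ring
  have g2 : LB * Lc ≤ LB * ((C1 * C3) ^ 2 * C2 * (eset (Fin n) (j + 3)).card) := by
    calc LB * Lc = (La * L1) ^ 2 := id.symm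
      _ ≤ (C1 * C3 * ∑ x ∈ A, wt ν x.2) ^ 2 := by gcongr
      _ = (C1 * C3) ^ 2 * (∑ x ∈ A, wt ν x.2) ^ 2 := by ring
      _ ≤ (C1 * C3) ^ 2 * ((eset (Fin n) (j + 3)).card * (C2 * LB)) := by
          apply mul_le_mul_of_nonneg_left _ (by positivity)
          exact f2.trans (mul_le_mul_of_nonneg_left (f3.trans f4) (by positivity))
      _ = _ := by ring
  exact le_of_mul_le_mul_left g2 p3

end Pool.Agent.MP_c4b7b1_co

end

section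

/-! A positive proportion of the graphs of maximum degree at most `k` is `k`-edge-colourable. -/

namespace Pool.Agent.MP_c4b7b1_co

open Finset Real

theorem eset_lower (j : ℕ) :
    ∃ C : ℝ, 0 < C ∧ ∃ N : ℕ, ∀ n ≥ N,
      Lv (j + 3) (PD (j + 3)) √((j + 3 : ℕ) : ℝ) n ≤ C * (eset (Fin n) (j + 3)).card := by
  induction j with
  | zero => exact base
  | succ j ih => exact step (j + 1) ih

theorem bset_le_eset (j : ℕ) :
    ∃ C : ℝ, 0 < C ∧ ∃ N : ℕ, ∀ n ≥ N,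
      ((bset (Fin n) (j + 3)).card : ℝ) ≤ C * (eset (Fin n) (j + 3)).card := by
  obtain ⟨C1, hC1, N, h1⟩ := eset_lower j
  obtain ⟨C2, hC2, h2⟩ := bset_upper (j + 2)
  refine ⟨C2 * C1, by positivity, max N 1, fun n hn => ?_⟩
  refine (h2 n (le_of_max_le_right hn)).trans ?_
  rw [mul_assoc]
  exact mul_le_mul_of_nonneg_left (h1 n (le_of_max_le_left hn)) hC2.le

lemma ncard_nb {V : Type} [Fintype V] (G : SimpleGraph V) (v : V) :
    (G.neighborSet v).ncard = deg G v := by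
  unfold deg
  rw [← Set.ncard_coe_finset]
  congr 1
  ext w; simp

theorem main (D : ℕ) (hD : 3 ≤ D) :
    ∃ c : ℝ, c < 1 ∧ ∀ᶠ n : ℕ in Filter.atTop,
      (({G : SimpleGraph (Fin n) | (∀ v, (G.neighborSet v).ncard ≤ D) ∧
          G.lineGraph.chromaticNumber = (D : ℕ∞) + 1}.ncard : ℝ) /
        ({G : SimpleGraph (Fin n) | ∀ v, (G.neighborSet v).ncard ≤ D}.ncard : ℝ)) ≤ c := by
  classical
  obtain ⟨j, rfl⟩ : ∃ j, D = j + 3 := ⟨D - 3, by omega⟩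
  obtain ⟨C, hC, N, h⟩ := bset_le_eset j
  refine ⟨1 - 1 / C, by have : 0 < 1 / C := by positivity
                        linarith, Filter.eventually_atTop.mpr ⟨N, fun n hn => ?_⟩⟩
  have e1 : {G : SimpleGraph (Fin n) | ∀ v, (G.neighborSet v).ncard ≤ j + 3} =
      (bset (Fin n) (j + 3) : Set _) := by
    ext G; simp only [Set.mem_setOf_eq, mem_coe, mem_bset, ncard_nb]
  have hsub : eset (Fin n) (j + 3) ⊆ bset (Fin n) (j + 3) :=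
    fun G hG => mem_bset.mpr (mem_eset.mp hG).deg_le
  have e2 : {G : SimpleGraph (Fin n) | (∀ v, (G.neighborSet v).ncard ≤ j + 3) ∧
      G.lineGraph.chromaticNumber = ((j + 3 : ℕ) : ℕ∞) + 1} ⊆
      ((bset (Fin n) (j + 3) \ eset (Fin n) (j + 3) : Finset _) : Set _) := by
    intro G hG
    simp only [Set.mem_setOf_eq, ncard_nb] at hG
    rw [mem_coe, mem_sdiff, mem_bset, mem_eset]
    refine ⟨hG.1, fun hU => ?_⟩
    have := hU.colorable.chromaticNumber_le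
    rw [hG.2] at this
    have h' : ((j + 3 + 1 : ℕ) : ℕ∞) ≤ ((j + 3 : ℕ) : ℕ∞) := by exact_mod_cast this
    have := Nat.cast_le.mp h'
    omega
  have e3 := Set.ncard_le_ncard e2 (Finset.finite_toSet _)
  rw [Set.ncard_coe_finset, card_sdiff_of_subset hsub] at e3
  rw [e1, Set.ncard_coe_finset]
  have hpos : 0 < (bset (Fin n) (j + 3)).card :=
    card_pos.mpr ⟨⊥, mem_bset.mpr (fun v => by rw [deg_bot]; omega)⟩
  have hpos' : (0 : ℝ) < (bset (Fin n) (j + 3)).card := by exact_mod_cast hpos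
  rw [div_le_iff₀ hpos']
  have e4 : (({G : SimpleGraph (Fin n) | (∀ v, (G.neighborSet v).ncard ≤ j + 3) ∧
      G.lineGraph.chromaticNumber = ((j + 3 : ℕ) : ℕ∞) + 1}.ncard : ℕ) : ℝ) ≤
      (bset (Fin n) (j + 3)).card - (eset (Fin n) (j + 3)).card := by
    rw [← Nat.cast_sub (card_le_card hsub)]
    exact_mod_cast e3
  refine e4.trans ?_
  have e5 : 1 / C * (bset (Fin n) (j + 3)).card ≤ (eset (Fin n) (j + 3)).card := by
    rw [one_div, inv_mul_le_iff₀ hC]; exact h n hn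
  linarith

end Pool.Agent.MP_c4b7b1_co

end
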