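import Pool.Agent.Mg.Fc4b7b1.G556c9a
import Mathlib

section

/-! Weighted matchings: a lower bound, and a switching argument for avoiding a sparse graph. -/

namespace Pool.Agent.MP_c4b7b1_co

open Finset Real

variable {V : Type} [Fintype V] [DecidableEq V]

/-- matchings -/
def IsM (M : SimpleGraph V) : Prop := ∀ v, deg M v ≤ 1

/-- weight of a matching -/
noncomputable def wt (ν : ℝ) (M : SimpleGraph V) : ℝ := ∏ v, ν ^ (1 - deg M v)

open Classical in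
/-- matchings edge-disjoint from `H` -/
noncomputable def mset (H : SimpleGraph V) : Finset (SimpleGraph V) :=
  univ.filter (fun M => IsM M ∧ Disjoint H M)

open Classical in
/-- matchings avoiding a set of pairs -/
noncomputable def aset (P : Finset (V × V)) : Finset (SimpleGraph V) :=
  univ.filter (fun M => IsM M ∧ ∀ p ∈ P, ¬ M.Adj p.1 p.2)

lemma mem_mset {H M : SimpleGraph V} : M ∈ mset H ↔ IsM M ∧ Disjoint H M := by
  simp [mset]

lemma mem_aset {P : Finset (V × V)} {M : SimpleGraph V} :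
    M ∈ aset P ↔ IsM M ∧ ∀ p ∈ P, ¬ M.Adj p.1 p.2 := by
  simp only [aset, mem_filter, mem_univ, true_and]

omit [DecidableEq V] in
lemma wt_nonneg {ν : ℝ} (hν : 0 ≤ ν) (M : SimpleGraph V) : 0 ≤ wt ν M :=
  prod_nonneg (fun _ _ => pow_nonneg hν _)

omit [DecidableEq V] in
lemma deg_comap (M : SimpleGraph V) (e : V ≃ V) (v : V) : deg (M.comap e) v = deg M (e v) := by
  unfold deg
  apply card_bij (fun x _ => e x)
  · intro x hx; simpa using hx
  · intro x _ y _ h; exact e.injective h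
  · intro y hy
    refine ⟨e.symm y, ?_, by simp⟩
    simpa using hy

omit [DecidableEq V] in
lemma wt_comap (ν : ℝ) (M : SimpleGraph V) (e : V ≃ V) : wt ν (M.comap e) = wt ν M := by
  unfold wt
  simp only [deg_comap]
  exact e.prod_comp (fun v => ν ^ (1 - deg M v))

open Classical in
lemma switch_step {ν : ℝ} (hν : 0 ≤ ν) (H : SimpleGraph V) (D : ℕ) (hH : ∀ v, deg H v ≤ D)
    (P : Finset (V × V)) (hP : ∀ p ∈ P, H.Adj p.1 p.2) (a b : V) :
    ((Fintype.card V : ℝ) - 2 - 2 * D) * ∑ M ∈ (aset P).filter (fun M => M.Adj a b), wt ν M ≤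
      ∑ M ∈ aset (insert (a, b) P), wt ν M := by
  set X := (aset P).filter (fun M => M.Adj a b) with hX
  set good : SimpleGraph V → Finset V :=
    fun M => univ \ (({a, b} ∪ nb H a) ∪ (nb H b).biUnion (nb M)) with hgood
  have hcard : ∀ M ∈ X, (Fintype.card V : ℝ) - 2 - 2 * D ≤ (good M).card := by
    intro M hM
    rw [hX, mem_filter, mem_aset] at hM
    have h1 : ((nb H b).biUnion (nb M)).card ≤ D := by
      refine card_biUnion_le.trans ?_
      calc ∑ x ∈ nb H b, (nb M x).card ≤ ∑ _x ∈ nb H b, 1 := sum_le_sum (fun x _ => hM.1.1 x)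
        _ = deg H b := by simp [deg]
        _ ≤ D := hH b
    have h2 : (({a, b} : Finset V) ∪ nb H a).card ≤ 2 + D :=
      (card_union_le _ _).trans (add_le_add card_le_two (hH a))
    have h3 := card_union_le (({a, b} : Finset V) ∪ nb H a) ((nb H b).biUnion (nb M))
    have h4 := le_card_sdiff (({a, b} ∪ nb H a) ∪ (nb H b).biUnion (nb M)) (univ : Finset V)
    rw [card_univ] at h4
    have h5 : Fintype.card V ≤ (good M).card + (2 + 2 * D) := by
      simp only [hgood]; omega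
    have h6 : (Fintype.card V : ℝ) ≤ (good M).card + (2 + 2 * D) := by exact_mod_cast h5
    linarith
  have hg : ∀ M c, c ∈ good M → c ≠ a ∧ c ≠ b ∧ ¬ H.Adj a c ∧ ∀ d, H.Adj b d → ¬ M.Adj d c := by
    intro M c hc
    simp only [hgood, mem_sdiff, mem_univ, true_and, mem_union, mem_insert, mem_singleton,
      mem_nb, mem_biUnion, not_or, not_exists, not_and] at hc
    exact ⟨hc.1.1.1, hc.1.1.2, hc.1.2, hc.2⟩
  set g : (Σ _ : SimpleGraph V, V) → SimpleGraph V :=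
    fun x => x.1.comap (Equiv.swap b x.2) with hgdef
  have hmaps : ∀ x ∈ X.sigma good, g x ∈ aset (insert (a, b) P) ∧ (g x).Adj a x.2 := by
    rintro ⟨M, c⟩ hx
    rw [mem_sigma, hX, mem_filter, mem_aset] at hx
    obtain ⟨⟨⟨hM, hMP⟩, hab⟩, hc⟩ := hx
    obtain ⟨hca, hcb, hac, hd⟩ := hg M c hc
    simp only at hab hM hMP hca hcb hac hd
    have huniq : ∀ v x y, M.Adj v x → M.Adj v y → x = y := fun v => deg_le_one.mp (hM v)
    have hab' : a ≠ b := hab.ne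
    have hsa : Equiv.swap b c a = a := Equiv.swap_apply_of_ne_of_ne hab' hca.symm
    have key : ∀ x y, H.Adj x y → ¬ M.Adj x y → (x = b ∨ x = c ∨ (y ≠ b ∧ y ≠ c)) →
        ¬ M.Adj (Equiv.swap b c x) (Equiv.swap b c y) := by
      intro x y hxy hn hcase hadj
      by_cases hxb : x = b
      · subst hxb
        rw [Equiv.swap_apply_left] at hadj
        by_cases hyc : y = c
        · subst hyc
          rw [Equiv.swap_apply_right] at hadj
          exact hca (huniq x _ _ hadj.symm hab.symm)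
        · rw [Equiv.swap_apply_of_ne_of_ne hxy.ne.symm hyc] at hadj
          exact hd y hxy hadj.symm
      · by_cases hxc : x = c
        · subst hxc
          rw [Equiv.swap_apply_right] at hadj
          have := huniq b _ _ hadj hab.symm
          rw [← hsa] at this
          have := (Equiv.swap b x).injective this
          subst this
          exact hac hxy.symm
        · have hy : y ≠ b ∧ y ≠ c := by tauto
          rw [Equiv.swap_apply_of_ne_of_ne hxb hxc, Equiv.swap_apply_of_ne_of_ne hy.1 hy.2] at hadj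
          exact hn hadj
    refine ⟨mem_aset.mpr ⟨fun v => ?_, ?_⟩, ?_⟩
    · simp only [hgdef, deg_comap]; exact hM _
    · intro p hp
      rw [mem_insert] at hp
      simp only [hgdef, SimpleGraph.comap_adj]
      rcases hp with rfl | hp
      · simp only [hsa, Equiv.swap_apply_left]
        intro h; exact hcb (huniq a _ _ h hab)
      · by_cases hcase : p.1 = b ∨ p.1 = c ∨ (p.2 ≠ b ∧ p.2 ≠ c)
        · exact key _ _ (hP p hp) (hMP p hp) hcase
        · intro h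
          refine key p.2 p.1 (hP p hp).symm (fun h' => hMP p hp h'.symm) ?_ h.symm
          tauto
    · simp only [hgdef, SimpleGraph.comap_adj, hsa, Equiv.swap_apply_right]; exact hab
  have hinj : Set.InjOn g (X.sigma good : Finset _) := by
    rintro ⟨M, c⟩ hx ⟨M', c'⟩ hy h
    have h1 := hmaps _ hx
    have h2 := hmaps _ hy
    rw [← h] at h2
    have hcc : c = c' := deg_le_one.mp ((mem_aset.mp h1.1).1 a) _ _ h1.2 h2.2
    subst hcc
    have : M = M' := by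
      ext x y
      have := congrArg (fun G : SimpleGraph V => G.Adj (Equiv.swap b c x) (Equiv.swap b c y)) h
      simpa [hgdef] using this
    rw [this]
  calc _ = ∑ M ∈ X, ((Fintype.card V : ℝ) - 2 - 2 * D) * wt ν M := by rw [mul_sum]
    _ ≤ ∑ M ∈ X, ∑ c ∈ good M, wt ν (g ⟨M, c⟩) := by
        apply sum_le_sum
        intro M hM
        simp only [hgdef, wt_comap, sum_const, nsmul_eq_mul]
        exact mul_le_mul_of_nonneg_right (hcard M hM) (wt_nonneg hν M)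
    _ = ∑ x ∈ X.sigma good, wt ν (g x) := by rw [sum_sigma]
    _ = ∑ y ∈ (X.sigma good).image g, wt ν y := by rw [sum_image hinj]
    _ ≤ _ := by
        apply sum_le_sum_of_subset_of_nonneg
        · intro y hy
          obtain ⟨x, hx, rfl⟩ := mem_image.mp hy
          exact (hmaps x hx).1
        · intro y _ _; exact wt_nonneg hν y

lemma switch_all {ν : ℝ} (hν : 0 ≤ ν) (H : SimpleGraph V) (D : ℕ) (hH : ∀ v, deg H v ≤ D)
    (hn : 4 * D + 4 ≤ Fintype.card V) (P : Finset (V × V)) (hP : ∀ p ∈ P, H.Adj p.1 p.2) :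
    ∑ M ∈ aset (∅ : Finset (V × V)), wt ν M ≤
      exp (2 / Fintype.card V) ^ P.card * ∑ M ∈ aset P, wt ν M := by
  classical
  induction P using Finset.induction_on with
  | empty => simp
  | insert p P hp ih =>
    have hP' : ∀ q ∈ P, H.Adj q.1 q.2 := fun q hq => hP q (mem_insert_of_mem hq)
    refine (ih hP').trans ?_
    rw [card_insert_of_notMem hp, pow_succ, mul_assoc]
    apply mul_le_mul_of_nonneg_left _ (by positivity)
    have h1 := switch_step hν H D hH P hP' p.1 p.2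
    have h2 : ∑ M ∈ aset P, wt ν M = ∑ M ∈ (aset P).filter (fun M => M.Adj p.1 p.2), wt ν M +
        ∑ M ∈ aset (insert p P), wt ν M := by
      rw [← sum_filter_add_sum_filter_not (aset P) (fun M => M.Adj p.1 p.2)]
      congr 2
      ext M
      simp only [mem_filter, mem_aset, forall_mem_insert]
      tauto
    set A := ∑ M ∈ (aset P).filter (fun M => M.Adj p.1 p.2), wt ν M
    set B := ∑ M ∈ aset (insert p P), wt ν M
    have hA : 0 ≤ A := sum_nonneg (fun _ _ => wt_nonneg hν _)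
    have hB : 0 ≤ B := sum_nonneg (fun _ _ => wt_nonneg hν _)
    have hn' : 4 * (D : ℝ) + 4 ≤ Fintype.card V := by exact_mod_cast hn
    have hD : (0 : ℝ) ≤ D := by positivity
    set n : ℝ := (Fintype.card V : ℝ)
    have hn0 : 0 < n := by linarith
    have h3 : A ≤ 2 / n * B := by
      rw [div_mul_eq_mul_div, le_div_iff₀ hn0]
      have h1' : (n - 2 - 2 * D) * A ≤ B := h1
      nlinarith
    have h4 := add_one_le_exp (2 / n)
    rw [h2]
    nlinarith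

theorem switch {ν : ℝ} (hν : 0 ≤ ν) (H : SimpleGraph V) (D : ℕ) (hH : ∀ v, deg H v ≤ D)
    (hn : 4 * D + 4 ≤ Fintype.card V) :
    ∑ M ∈ mset (⊥ : SimpleGraph V), wt ν M ≤ exp (2 * D) * ∑ M ∈ mset H, wt ν M := by
  classical
  set P : Finset (V × V) := univ.filter (fun p => H.Adj p.1 p.2) with hPdef
  have h1 := switch_all hν H D hH hn P (fun p hp => (mem_filter.mp hp).2)
  have e1 : aset (∅ : Finset (V × V)) = mset ⊥ := by
    ext M; simp [mem_aset, mem_mset]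
  have e2 : aset P = mset H := by
    ext M
    simp only [mem_aset, mem_mset, hPdef, mem_filter, mem_univ, true_and, Prod.forall]
    refine and_congr_right (fun _ => ?_)
    rw [disjoint_iff]
    constructor
    · intro h; ext x y
      simp only [SimpleGraph.inf_adj, SimpleGraph.bot_adj, iff_false, not_and]
      exact h x y
    · intro h x y h1 h2
      have : (H ⊓ M).Adj x y := ⟨h1, h2⟩
      rw [h] at this; exact this
  rw [e1, e2] at h1
  refine h1.trans (mul_le_mul_of_nonneg_right ?_ (sum_nonneg (fun _ _ => wt_nonneg hν _)))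
  have hc : P.card ≤ D * Fintype.card V := by
    have : P = (univ : Finset V).biUnion (fun v => (nb H v).image (fun w => (v, w))) := by
      ext ⟨x, y⟩; simp [hPdef]
    rw [this]
    refine card_biUnion_le.trans ?_
    calc _ ≤ ∑ _v : V, D := sum_le_sum (fun v _ => card_image_le.trans (hH v))
      _ = _ := by simp [mul_comm]
  have hn0 : (0 : ℝ) < Fintype.card V := by exact_mod_cast (by omega : 0 < Fintype.card V)
  rw [← exp_nat_mul]
  apply exp_le_exp.mpr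
  have hc' : (P.card : ℝ) ≤ D * Fintype.card V := by exact_mod_cast hc
  rw [← mul_div_assoc, div_le_iff₀ hn0]
  linarith

lemma sum_mset_ge {ν : ℝ} (hν : 0 ≤ ν) :
    ∑ S ∈ (univ : Finset V).powerset, (pm S.card : ℝ) * ν ^ (Fintype.card V - S.card) ≤
      ∑ M ∈ mset (⊥ : SimpleGraph V), wt ν M := by
  classical
  rw [← sum_fiberwise_of_maps_to (s := mset ⊥) (t := (univ : Finset V).powerset)
    (g := fun M => univ.filter (fun v => deg M v = 1)) (fun _ _ => by simp)]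
  apply sum_le_sum
  intro S _
  have e : (mset (⊥ : SimpleGraph V)).filter (fun M => univ.filter (fun v => deg M v = 1) = S) =
      gset (fun v => if v ∈ S then 1 else 0) := by
    ext M
    simp only [mem_filter, mem_mset, mem_gset, disjoint_bot_left, and_true]
    constructor
    · rintro ⟨hM, rfl⟩ v
      have := hM v
      simp only [mem_filter, mem_univ, true_and]
      split_ifs <;> omega
    · intro h
      refine ⟨fun v => ?_, ?_⟩
      · rw [h v]; split_ifs <;> omega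
      · ext v; simp [h v]
  rw [e, sum_congr rfl (g := fun _ => ν ^ (Fintype.card V - S.card)), sum_const, nsmul_eq_mul]
  · apply mul_le_mul_of_nonneg_right _ (by positivity)
    exact_mod_cast pm_le_card _ S rfl
  · intro M hM
    rw [mem_gset] at hM
    unfold wt
    simp only [hM]
    rw [prod_pow_eq_pow_sum]
    congr 1
    rw [← card_compl, card_eq_sum_ones, ← sum_filter_add_sum_filter_not univ (fun v => v ∈ S)]
    rw [sum_eq_zero (s := univ.filter (fun v => v ∈ S)), zero_add]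
    · apply sum_congr
      · ext v; simp
      · intro v hv; simp only [mem_compl] at hv; simp [hv]
    · intro v hv; simp only [mem_filter, mem_univ, true_and] at hv; simp [hv]

lemma pm_ge_even (m : ℕ) (t : ℝ) (ht : 0 ≤ t) :
    exp (-t ^ 2 / 2) / 4 * (t ^ m + (-t) ^ m) ≤ pm m := by
  rcases Nat.even_or_odd' m with ⟨k, rfl | rfl⟩
  · have h1 := lap_le_pm k
    have h2 := pow_exp_le_lap (2 * k) t ht
    rw [Even.neg_pow (even_two_mul k)]
    linarith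
  · rw [Odd.neg_pow (odd_two_mul_add_one k)]; simp

theorem matchings_lower {ν : ℝ} (hν : 0 < ν) :
    ∃ C : ℝ, 0 < C ∧ ∃ N : ℕ, ∀ n ≥ N,
      Lv 1 1 ν n ≤ C * ∑ M ∈ mset (⊥ : SimpleGraph (Fin n)), wt ν M := by
  refine ⟨8 * exp (ν ^ 2), by positivity, ⌈(ν + 1 / ν) ^ 2⌉₊, fun n hn => ?_⟩
  set s := √(n : ℝ) with hs
  have hss : s ^ 2 = n := sq_sqrt (by positivity)
  have hs1 : ν + 1 / ν ≤ s := Real.le_sqrt_of_sq_le (Nat.ceil_le.mp hn)
  have hν' : 0 < 1 / ν := by positivity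
  have hs0 : 0 < s := by linarith
  have h1 := sum_mset_ge (V := Fin n) hν.le
  have h2 : exp (-s ^ 2 / 2) / 4 * ((s + ν) ^ n + (-s + ν) ^ n) ≤
      ∑ S ∈ (univ : Finset (Fin n)).powerset,
        (pm S.card : ℝ) * ν ^ (Fintype.card (Fin n) - S.card) := by
    have e1 := sum_pow_mul_eq_add_pow s ν (univ : Finset (Fin n))
    have e2 := sum_pow_mul_eq_add_pow (-s) ν (univ : Finset (Fin n))
    rw [card_univ, Fintype.card_fin] at e1 e2
    rw [← e1, ← e2, ← sum_add_distrib, mul_sum, Fintype.card_fin]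
    apply sum_le_sum
    intro S _
    rw [← add_mul, ← mul_assoc]
    exact mul_le_mul_of_nonneg_right (pm_ge_even _ s hs0.le) (by positivity)
  have h3 : 2 * (s - ν) ^ n ≤ (s + ν) ^ n := by
    have ha : 0 ≤ 2 * ν / (s + ν) := by positivity
    have hb := one_add_mul_le_pow (a := 2 * ν / (s + ν)) (by linarith) n
    have hc : 1 ≤ (n : ℝ) * (2 * ν / (s + ν)) := by
      rw [← mul_div_assoc, le_div_iff₀ (by positivity), ← hss]
      have : 1 ≤ ν * s := by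
        have : ν * (1 / ν) = 1 := by field_simp
        nlinarith
      nlinarith
    have hd : (1 + 2 * ν / (s + ν)) * (s - ν) ≤ s + ν := by
      have e : (1 + 2 * ν / (s + ν)) * (s - ν) = ((s + 3 * ν) * (s - ν)) / (s + ν) := by
        field_simp; ring
      rw [e, div_le_iff₀ (by positivity)]
      nlinarith
    have he : 0 ≤ s - ν := by linarith
    calc 2 * (s - ν) ^ n ≤ (1 + 2 * ν / (s + ν)) ^ n * (s - ν) ^ n := by
          apply mul_le_mul_of_nonneg_right _ (by positivity); linarith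
      _ = ((1 + 2 * ν / (s + ν)) * (s - ν)) ^ n := by rw [mul_pow]
      _ ≤ _ := pow_le_pow_left₀ (by positivity) hd n
  have h4 : -(s - ν) ^ n ≤ (-s + ν) ^ n := by
    have : -s + ν = -(s - ν) := by ring
    rw [this]
    have he : 0 ≤ (s - ν) ^ n := by apply pow_nonneg; linarith
    rcases neg_one_pow_eq_or ℝ n with h | h <;> rw [neg_pow, h] <;> linarith
  have h5 : s ^ n * exp (ν * s - ν ^ 2) ≤ (s + ν) ^ n := by
    set x := ν / s with hx
    have hx0 : 0 ≤ x := by positivity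
    have ha : exp (x - x ^ 2) ≤ 1 + x := by
      have hb := add_one_le_exp (-(x - x ^ 2))
      have hc : exp (x - x ^ 2) * exp (-(x - x ^ 2)) = 1 := by rw [← exp_add]; simp
      have hd := exp_pos (x - x ^ 2)
      have he : 0 ≤ x ^ 3 := by positivity
      by_contra hcon
      push Not at hcon
      have hf : 0 < -(x - x ^ 2) + 1 := by nlinarith [sq_nonneg (x - 1 / 2)]
      have : (1 + x) * (-(x - x ^ 2) + 1) < exp (x - x ^ 2) * exp (-(x - x ^ 2)) :=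
        mul_lt_mul hcon hb hf hd.le
      nlinarith
    have hb : ν * s - ν ^ 2 = n * (x - x ^ 2) := by
      rw [← hss, hx]; field_simp
    rw [hb, exp_nat_mul, ← mul_pow]
    apply pow_le_pow_left₀ (by positivity)
    calc s * exp (x - x ^ 2) ≤ s * (1 + x) := by gcongr
      _ = s + ν := by rw [hx]; field_simp
  have e3 : Lv 1 1 ν n = 8 * exp (ν ^ 2) *
      (exp (-s ^ 2 / 2) / 4 * (s ^ n * exp (ν * s - ν ^ 2) / 2)) := by
    unfold Lv
    rw [← hs, exp_sub, hss]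
    simp only [one_pow, one_mul, Nat.cast_one]
    field_simp; ring
  rw [e3]
  apply mul_le_mul_of_nonneg_left _ (by positivity)
  refine le_trans ?_ (h2.trans h1)
  apply mul_le_mul_of_nonneg_left _ (by positivity)
  linarith

/-- weighted matchings avoiding a sparse graph -/
theorem avoid_lower {ν : ℝ} (hν : 0 < ν) (D : ℕ) :
    ∃ C : ℝ, 0 < C ∧ ∃ N : ℕ, ∀ n ≥ N, ∀ H : SimpleGraph (Fin n), (∀ v, deg H v ≤ D) →
      Lv 1 1 ν n ≤ C * ∑ M ∈ mset H, wt ν M := by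
  obtain ⟨C, hC, N, hN⟩ := matchings_lower hν
  refine ⟨C * exp (2 * D), by positivity, max N (4 * D + 4), fun n hn H hH => ?_⟩
  refine (hN n (le_of_max_le_left hn)).trans ?_
  rw [mul_assoc]
  apply mul_le_mul_of_nonneg_left _ hC.le
  exact switch hν.le H D hH (by rw [Fintype.card_fin]; exact le_of_max_le_right hn)

end Pool.Agent.MP_c4b7b1_co

end

section

/-! The three analytic inequalities with quadratic stability. -/

namespace Pool.Agent.MP_c4b7b1_co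

open Real

lemma le_exp_sub_one (r : ℝ) : r ≤ exp (r - 1) := by
  have := add_one_le_exp (r - 1); linarith

lemma pow_le_exp_mul {r : ℝ} (hr : 0 ≤ r) (m : ℕ) : r ^ m ≤ exp (m * (r - 1)) := by
  rw [exp_nat_mul]; exact pow_le_pow_left₀ hr (le_exp_sub_one r) m

lemma ineq_one (m : ℕ) (hm : 1 ≤ m) (y : ℝ) (hy : 0 ≤ y) :
    y ^ m ≤ √(m : ℝ) ^ m * exp (y ^ 2 / 2 - m / 2 - 1 / 8 * (y - √(m : ℝ)) ^ 2) := by
  have hm' : (0 : ℝ) < m := by exact_mod_cast hm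
  set s := √(m : ℝ) with hs
  have hs0 : 0 < s := sqrt_pos.mpr hm'
  have hss : s ^ 2 = m := sq_sqrt hm'.le
  have h3 : y ^ m = s ^ m * (y / s) ^ m := by
    rw [← mul_pow]; congr 1; field_simp
  rw [h3]
  apply mul_le_mul_of_nonneg_left _ (by positivity)
  refine (pow_le_exp_mul (by positivity) m).trans (exp_le_exp.mpr ?_)
  have : (m : ℝ) * (y / s) = s * y := by rw [← hss]; field_simp
  nlinarith [sq_nonneg (y - s)]

lemma lip9 {a b c e τ k ε : ℝ} (ha : 0 ≤ a) (hb : 0 ≤ b) (he : 0 ≤ e) (hτ : 0 ≤ τ)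
    (hk : 1 ≤ k) (h : (k + 1) * τ ^ 2 = a * e + k * (b * c)) (hε : 0 ≤ ε)
    (h1 : |a - 1| ≤ ε) (h2 : |e - 1| ≤ ε) (h3 : |b - c| ≤ ε) (h4 : |τ - 1| ≤ ε) :
    |b - 1| ≤ 9 * ε := by
  rw [abs_le] at h1 h2 h3 h4 ⊢
  obtain ⟨h1, h1'⟩ := h1
  obtain ⟨h2, h2'⟩ := h2
  obtain ⟨h3, h3'⟩ := h3
  obtain ⟨h4, h4'⟩ := h4
  rcases le_total ε 1 with hle | hle
  · have t1 : τ ^ 2 - 1 ≤ 3 * ε := by nlinarith
    have t2 : -(3 * ε) ≤ τ ^ 2 - 1 := by nlinarith
    have t3 : a * e - 1 ≤ 3 * ε := by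
      have : a * e ≤ (1 + ε) * (1 + ε) := mul_le_mul (by linarith) (by linarith) he (by linarith)
      nlinarith
    have t4 : -(3 * ε) ≤ a * e - 1 := by
      have : (1 - ε) * (1 - ε) ≤ a * e := mul_le_mul (by linarith) (by linarith) (by linarith) ha
      nlinarith
    have t5 : b * c - 1 ≤ 9 * ε := by
      have : k * (b * c - 1) ≤ k * (9 * ε) := by nlinarith
      exact le_of_mul_le_mul_left this (by linarith)
    have t6 : -(9 * ε) ≤ b * c - 1 := by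
      have : k * (-(9 * ε)) ≤ k * (b * c - 1) := by nlinarith
      exact le_of_mul_le_mul_left this (by linarith)
    constructor
    · have : -(9 * ε) * (b + 1) ≤ (b - 1) * (b + 1) := by nlinarith
      exact le_of_mul_le_mul_right this (by linarith)
    · have : (b - 1) * (b + 1) ≤ (9 * ε) * (b + 1) := by nlinarith
      exact le_of_mul_le_mul_right this (by linarith)
  · constructor
    · linarith
    · by_contra hcon
      push Not at hcon
      have t1 : τ ^ 2 ≤ 4 * ε ^ 2 := by nlinarith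
      have t2 : b * c ≤ 8 * ε ^ 2 := by
        have : k * (b * c) ≤ k * (8 * ε ^ 2) := by nlinarith [mul_nonneg ha he]
        exact le_of_mul_le_mul_left this (by linarith)
      have t3 : (9 * ε) * (8 * ε) ≤ b * c := mul_le_mul (by linarith) (by linarith) (by linarith) hb
      nlinarith

lemma pen_bound {a b c e τ k Pen : ℝ} (ha : 0 ≤ a) (hb : 0 ≤ b) (hc : 0 ≤ c) (he : 0 ≤ e)
    (hτ0 : 0 ≤ τ) (hk2 : 2 ≤ k) (hττ' : (k + 1) * τ ^ 2 = a * e + k * (b * c))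
    (hPen : Pen = (k + 1) * (k - 1) * (a - 1) ^ 2 / 2 + (a - e) ^ 2 / 2 + k * (b - c) ^ 2 / 2 +
      (k + 1) * (τ - 1) ^ 2) :
    k ^ 2 * (a - 1) ^ 2 + k * (b - 1) ^ 2 + k * (c - 1) ^ 2 + (e - 1) ^ 2 ≤
      2000 * k ^ 2 * Pen := by
  have p1 : 0 ≤ (a - 1) ^ 2 := sq_nonneg _
  have p2 : 0 ≤ (a - e) ^ 2 := sq_nonneg _
  have p3 : 0 ≤ (b - c) ^ 2 := sq_nonneg _
  have p4 : 0 ≤ (τ - 1) ^ 2 := sq_nonneg _
  have q1 : (a - 1) ^ 2 ≤ (k + 1) * (k - 1) * (a - 1) ^ 2 :=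
    le_mul_of_one_le_left p1 (by nlinarith only [hk2])
  have q3 : (b - c) ^ 2 ≤ k * (b - c) ^ 2 := le_mul_of_one_le_left p3 (by linarith)
  have q4 : (τ - 1) ^ 2 ≤ (k + 1) * (τ - 1) ^ 2 := le_mul_of_one_le_left p4 (by linarith)
  have hP0 : 0 ≤ Pen := by linarith
  have r1 : (a - 1) ^ 2 ≤ 2 * Pen := by linarith
  have r2 : (e - 1) ^ 2 ≤ 8 * Pen := by
    have : (e - 1) ^ 2 ≤ 2 * (a - e) ^ 2 + 2 * (a - 1) ^ 2 := by
      nlinarith only [sq_nonneg (2 * a - e - 1)]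
    linarith
  have r3 : (b - c) ^ 2 ≤ 8 * Pen := by linarith
  have r4 : (τ - 1) ^ 2 ≤ 8 * Pen := by linarith
  clear hPen q1 q3 q4
  have hε0 : 0 ≤ √(8 * Pen) := sqrt_nonneg _
  have hεε : √(8 * Pen) ^ 2 = 8 * Pen := sq_sqrt (by linarith)
  have s1 : |a - 1| ≤ √(8 * Pen) := abs_le_sqrt (by linarith)
  have s2 : |e - 1| ≤ √(8 * Pen) := abs_le_sqrt r2
  have s3 : |b - c| ≤ √(8 * Pen) := abs_le_sqrt r3
  have s4 : |τ - 1| ≤ √(8 * Pen) := abs_le_sqrt r4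
  generalize √(8 * Pen) = ε at *
  have u1 := lip9 ha hb he hτ0 (by linarith) hττ' hε0 s1 s2 s3 s4
  have u2 := lip9 (b := c) (c := b) (k := k) ha hc he hτ0 (by linarith) (by rw [hττ']; ring) hε0 s1 s2
    (by rwa [abs_sub_comm]) s4
  have v1 : (b - 1) ^ 2 ≤ 648 * Pen := by
    have := sq_le_sq' (abs_le.mp u1).1 (abs_le.mp u1).2
    rw [mul_pow, hεε] at this
    linarith
  have v2 : (c - 1) ^ 2 ≤ 648 * Pen := by
    have := sq_le_sq' (abs_le.mp u2).1 (abs_le.mp u2).2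
    rw [mul_pow, hεε] at this
    linarith
  have hk0 : 0 ≤ k := by linarith
  have w1 : k ^ 2 * (a - 1) ^ 2 ≤ k ^ 2 * (2 * Pen) := by gcongr
  have w2 : k * (b - 1) ^ 2 ≤ k * (648 * Pen) := by gcongr
  have w3 : k * (c - 1) ^ 2 ≤ k * (648 * Pen) := by gcongr
  have w4 : k * Pen ≤ k ^ 2 * Pen := by gcongr; nlinarith only [hk2]
  have w5 : Pen ≤ k ^ 2 * Pen := le_mul_of_one_le_left hP0 (by nlinarith only [hk2])
  linarith

lemma ineq_step_norm (j : ℕ) (hj : 1 ≤ j) {a b c e : ℝ} (ha : 0 ≤ a) (hb : 0 ≤ b) (hc : 0 ≤ c)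
    (he : 0 ≤ e) (k : ℝ) (hk : k = j + 1) :
    a ^ j * ((a * e + k * (b * c)) / (k + 1)) ≤
      exp ((k ^ 2 * (a ^ 2 - 1) + k * (b ^ 2 - 1) + k * (c ^ 2 - 1) + (e ^ 2 - 1)) / (2 * (k + 1)) -
        1 / (2000 * k ^ 2) *
          ((k ^ 2 * (a - 1) ^ 2 + k * (b - 1) ^ 2 + k * (c - 1) ^ 2 + (e - 1) ^ 2) / (k + 1))) := by
  have hj' : (1 : ℝ) ≤ j := by exact_mod_cast hj
  have hk2 : 2 ≤ k := by linarith
  have ht0 : 0 ≤ (a * e + k * (b * c)) / (k + 1) := by positivity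
  obtain ⟨τ, hτ0, hττ⟩ : ∃ τ : ℝ, 0 ≤ τ ∧ τ ^ 2 = (a * e + k * (b * c)) / (k + 1) :=
    ⟨_, sqrt_nonneg _, sq_sqrt ht0⟩
  have hττ' : (k + 1) * τ ^ 2 = a * e + k * (b * c) := by rw [hττ]; field_simp
  rw [← hττ]
  have h1 := pow_le_exp_mul ha j
  have h2 := pow_le_exp_mul hτ0 2
  refine (mul_le_mul h1 h2 (by positivity) (by positivity)).trans ?_
  rw [← exp_add]
  apply exp_le_exp.mpr
  obtain ⟨Pen, hPen⟩ : ∃ Pen : ℝ, Pen = (k + 1) * (k - 1) * (a - 1) ^ 2 / 2 + (a - e) ^ 2 / 2 +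
    k * (b - c) ^ 2 / 2 + (k + 1) * (τ - 1) ^ 2 := ⟨_, rfl⟩
  have w := pen_bound ha hb hc he hτ0 hk2 hττ' hPen
  have w' : 1 / (2000 * k ^ 2) *
      ((k ^ 2 * (a - 1) ^ 2 + k * (b - 1) ^ 2 + k * (c - 1) ^ 2 + (e - 1) ^ 2) / (k + 1)) ≤
      Pen / (k + 1) := by
    rw [← mul_div_assoc]
    apply div_le_div_of_nonneg_right _ (by linarith)
    rw [one_div, inv_mul_le_iff₀ (by positivity)]
    exact w
  have id : (k ^ 2 * (a ^ 2 - 1) + k * (b ^ 2 - 1) + k * (c ^ 2 - 1) + (e ^ 2 - 1)) / (2 * (k + 1))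
      - Pen / (k + 1) = j * (a - 1) + (2 : ℕ) * (τ - 1) := by
    have hj2 : (j : ℝ) = k - 1 := by linarith
    rw [hj2, hPen]
    push_cast
    field_simp
    linear_combination (-2) * hττ'
  linarith only [w', id]

lemma amgm3 {x y z : ℝ} (hx : 0 ≤ x) (hy : 0 ≤ y) (hz : 0 ≤ z) :
    27 * (x * y * z) ≤ (x + y + z) ^ 3 := by
  have h1 : 0 ≤ (x + y + z) * ((x - y) ^ 2 + (x - z) ^ 2 + (y - z) ^ 2) := by positivity
  have h2 : 0 ≤ x * (y - z) ^ 2 + y * (x - z) ^ 2 + z * (x - y) ^ 2 := by positivity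
  nlinarith

lemma key_form {b1 b2 b3 : ℝ} (h1 : 0 ≤ b1) (h2 : 0 ≤ b2) (h3 : 0 ≤ b3) (c1 c2 c3 : ℝ) :
    3 * (b1 * c1 + b2 * c2 + b3 * c3) ^ 2 ≤
      (6 * b1 ^ 2 + (b1 * b2 + b1 * b3 + b2 * b3)) * c1 ^ 2 +
      (6 * b2 ^ 2 + (b1 * b2 + b1 * b3 + b2 * b3)) * c2 ^ 2 +
      (6 * b3 ^ 2 + (b1 * b2 + b1 * b3 + b2 * b3)) * c3 ^ 2 := by
  have p12 := mul_nonneg h1 h2
  have p13 := mul_nonneg h1 h3
  have p23 := mul_nonneg h2 h3
  obtain ⟨e, he⟩ : ∃ e, e = b1 * b2 + b1 * b3 + b2 * b3 := ⟨_, rfl⟩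
  rw [← he]
  have he0 : 0 ≤ e := by linarith
  rcases he0.eq_or_lt with h0 | hpos
  · have z12 : b1 * b2 = 0 := by linarith
    have z13 : b1 * b3 = 0 := by linarith
    have z23 : b2 * b3 = 0 := by linarith
    have : (b1 * c1 + b2 * c2 + b3 * c3) ^ 2 = (b1 * c1) ^ 2 + (b2 * c2) ^ 2 + (b3 * c3) ^ 2 +
        2 * (b1 * b2) * c1 * c2 + 2 * (b1 * b3) * c1 * c3 + 2 * (b2 * b3) * c2 * c3 := by ring
    rw [this, z12, z13, z23, ← h0]
    nlinarith only [sq_nonneg (b1 * c1), sq_nonneg (b2 * c2), sq_nonneg (b3 * c3)]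
  · obtain ⟨A1, hA1⟩ : ∃ A, A = 6 * b1 ^ 2 + e := ⟨_, rfl⟩
    obtain ⟨A2, hA2⟩ : ∃ A, A = 6 * b2 ^ 2 + e := ⟨_, rfl⟩
    obtain ⟨A3, hA3⟩ : ∃ A, A = 6 * b3 ^ 2 + e := ⟨_, rfl⟩
    rw [← hA1, ← hA2, ← hA3]
    have a1 : 0 < A1 := by rw [hA1]; positivity
    have a2 : 0 < A2 := by rw [hA2]; positivity
    have a3 : 0 < A3 := by rw [hA3]; positivity
    have cs : (b1 * c1 + b2 * c2 + b3 * c3) ^ 2 * (A1 * A2 * A3) ≤
        (b1 ^ 2 * A2 * A3 + b2 ^ 2 * A1 * A3 + b3 ^ 2 * A1 * A2) *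
          (A1 * c1 ^ 2 + A2 * c2 ^ 2 + A3 * c3 ^ 2) := by
      have : 0 ≤ A3 * (b1 * A2 * c2 - b2 * A1 * c1) ^ 2 + A2 * (b1 * A3 * c3 - b3 * A1 * c1) ^ 2 +
          A1 * (b2 * A3 * c3 - b3 * A2 * c2) ^ 2 := by positivity
      linarith only [this, show (b1 ^ 2 * A2 * A3 + b2 ^ 2 * A1 * A3 + b3 ^ 2 * A1 * A2) *
          (A1 * c1 ^ 2 + A2 * c2 ^ 2 + A3 * c3 ^ 2) -
          (b1 * c1 + b2 * c2 + b3 * c3) ^ 2 * (A1 * A2 * A3) =
          A3 * (b1 * A2 * c2 - b2 * A1 * c1) ^ 2 + A2 * (b1 * A3 * c3 - b3 * A1 * c1) ^ 2 +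
          A1 * (b2 * A3 * c3 - b3 * A2 * c2) ^ 2 by ring]
    have poly : 3 * (b1 ^ 2 * A2 * A3 + b2 ^ 2 * A1 * A3 + b3 ^ 2 * A1 * A2) ≤ A1 * A2 * A3 := by
      have am := amgm3 p12 p13 p23
      rw [← he] at am
      have hq : e ≤ b1 ^ 2 + b2 ^ 2 + b3 ^ 2 := by
        rw [he]; nlinarith only [sq_nonneg (b1 - b2), sq_nonneg (b1 - b3), sq_nonneg (b2 - b3)]
      have hq' : e ^ 2 * e ≤ e ^ 2 * (b1 ^ 2 + b2 ^ 2 + b3 ^ 2) := by gcongr
      have id : A1 * A2 * A3 - 3 * (b1 ^ 2 * A2 * A3 + b2 ^ 2 * A1 * A3 + b3 ^ 2 * A1 * A2) =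
          3 * (e ^ 2 * (b1 ^ 2 + b2 ^ 2 + b3 ^ 2)) + e ^ 3 -
            108 * (b1 * b2 * (b1 * b3) * (b2 * b3)) := by
        rw [hA1, hA2, hA3]; ring
      linarith only [am, hq', id]
    have hS : 0 ≤ A1 * c1 ^ 2 + A2 * c2 ^ 2 + A3 * c3 ^ 2 := by positivity
    have : 3 * (b1 * c1 + b2 * c2 + b3 * c3) ^ 2 * (A1 * A2 * A3) ≤
        (A1 * c1 ^ 2 + A2 * c2 ^ 2 + A3 * c3 ^ 2) * (A1 * A2 * A3) := by
      have := mul_le_mul_of_nonneg_right poly hS
      linarith only [this, cs]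
    exact le_of_mul_le_mul_right this (by positivity)

/-- the 3 by 3 permanent -/
def per (a1 a2 a3 b1 b2 b3 c1 c2 c3 : ℝ) : ℝ :=
  a1 * b2 * c3 + a1 * b3 * c2 + a2 * b1 * c3 + a2 * b3 * c1 + a3 * b1 * c2 + a3 * b2 * c1

lemma per_sq_le (a1 a2 a3 : ℝ) {b1 b2 b3 : ℝ} (h1 : 0 ≤ b1) (h2 : 0 ≤ b2) (h3 : 0 ≤ b3)
    (c1 c2 c3 : ℝ) :
    per a1 a2 a3 b1 b2 b3 c1 c2 c3 ^ 2 ≤ (a1 ^ 2 + a2 ^ 2 + a3 ^ 2) * ((c1 ^ 2 + c2 ^ 2 + c3 ^ 2) *
      (b1 ^ 2 + b2 ^ 2 + b3 ^ 2 + (b1 * b2 + b1 * b3 + b2 * b3) / 3)) := by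
  have k := key_form h1 h2 h3 c1 c2 c3
  obtain ⟨X1, hX1⟩ : ∃ X, X = b2 * c3 + b3 * c2 := ⟨_, rfl⟩
  obtain ⟨X2, hX2⟩ : ∃ X, X = b1 * c3 + b3 * c1 := ⟨_, rfl⟩
  obtain ⟨X3, hX3⟩ : ∃ X, X = b1 * c2 + b2 * c1 := ⟨_, rfl⟩
  have e1 : per a1 a2 a3 b1 b2 b3 c1 c2 c3 = a1 * X1 + a2 * X2 + a3 * X3 := by
    rw [hX1, hX2, hX3, per]; ring
  have e2 : X1 ^ 2 + X2 ^ 2 + X3 ^ 2 ≤ (c1 ^ 2 + c2 ^ 2 + c3 ^ 2) *
      (b1 ^ 2 + b2 ^ 2 + b3 ^ 2 + (b1 * b2 + b1 * b3 + b2 * b3) / 3) := by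
    rw [hX1, hX2, hX3]; linarith
  rw [e1]
  refine le_trans ?_ (mul_le_mul_of_nonneg_left e2 (by positivity))
  nlinarith only [sq_nonneg (a1 * X2 - a2 * X1), sq_nonneg (a1 * X3 - a3 * X1),
    sq_nonneg (a2 * X3 - a3 * X2)]

lemma row_le {b1 b2 b3 r : ℝ} (h1 : 0 ≤ b1) (h2 : 0 ≤ b2) (h3 : 0 ≤ b3) (hr : 0 ≤ r)
    (hrr : r ^ 2 = 1 / 3) :
    (b1 ^ 2 + b2 ^ 2 + b3 ^ 2) ^ 2 *
      (b1 ^ 2 + b2 ^ 2 + b3 ^ 2 + (b1 * b2 + b1 * b3 + b2 * b3) / 3) ≤
      4 / 3 * exp (6 * ((b1 ^ 2 + b2 ^ 2 + b3 ^ 2) / 2 - 1 / 2 -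
        1 / 48 * ((b1 - r) ^ 2 + (b2 - r) ^ 2 + (b3 - r) ^ 2))) := by
  obtain ⟨q, hq⟩ : ∃ q, q = b1 ^ 2 + b2 ^ 2 + b3 ^ 2 := ⟨_, rfl⟩
  obtain ⟨e, he⟩ : ∃ e, e = b1 * b2 + b1 * b3 + b2 * b3 := ⟨_, rfl⟩
  rw [← hq, ← he]
  have hq0 : 0 ≤ q := by rw [hq]; positivity
  have he0 : 0 ≤ e := by rw [he]; positivity
  have hqe : e ≤ q := by
    rw [he, hq]; nlinarith only [sq_nonneg (b1 - b2), sq_nonneg (b1 - b3), sq_nonneg (b2 - b3)]
  obtain ⟨ρ, hρ0, hρρ⟩ : ∃ ρ : ℝ, 0 ≤ ρ ∧ ρ ^ 2 = q := ⟨_, sqrt_nonneg _, sq_sqrt hq0⟩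
  obtain ⟨m, hm⟩ : ∃ m, m = r * (b1 + b2 + b3) := ⟨_, rfl⟩
  have hm0 : 0 ≤ m := by rw [hm]; positivity
  have hmm : m ^ 2 = q - 2 * (q - e) / 3 := by
    rw [hm, mul_pow, hrr, hq, he]; ring
  have hmρ : m ≤ ρ := le_of_pow_le_pow_left₀ (n := 2) (by norm_num) hρ0 (by linarith)
  have e1 : (b1 - r) ^ 2 + (b2 - r) ^ 2 + (b3 - r) ^ 2 = q - 2 * m + 1 := by
    rw [hq, hm]; linarith
  have e2 : q + e / 3 = 4 / 3 * (q - (q - e) / 4) := by ring
  have t1 : q ^ 2 ≤ exp ((4 : ℕ) * (ρ - 1)) := by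
    rw [← hρρ, ← pow_mul]; exact pow_le_exp_mul hρ0 4
  have t2 := le_exp_sub_one (q - (q - e) / 4)
  rw [e1, e2, mul_left_comm]
  apply mul_le_mul_of_nonneg_left _ (by norm_num)
  refine (mul_le_mul t1 t2 (by linarith) (by positivity)).trans ?_
  rw [← exp_add]
  apply exp_le_exp.mpr
  push_cast
  have t3 : (ρ - m) ^ 2 ≤ 2 * (q - e) / 3 := by
    have := mul_le_mul_of_nonneg_left hmρ hm0
    linarith only [this, hmm, hρρ]
  have t4 : (m - 1) ^ 2 ≤ 2 * (ρ - 1) ^ 2 + 2 * (ρ - m) ^ 2 := by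
    linarith only [sq_nonneg (2 * ρ - m - 1)]
  linarith only [sq_nonneg (ρ - 1), t3, t4, hmm, hρρ, hqe]

lemma ineq_per {a1 a2 a3 b1 b2 b3 c1 c2 c3 r : ℝ} (ha1 : 0 ≤ a1) (ha2 : 0 ≤ a2) (ha3 : 0 ≤ a3)
    (hb1 : 0 ≤ b1) (hb2 : 0 ≤ b2) (hb3 : 0 ≤ b3) (hc1 : 0 ≤ c1) (hc2 : 0 ≤ c2) (hc3 : 0 ≤ c3)
    (hr : 0 ≤ r) (hrr : r ^ 2 = 1 / 3) :
    per a1 a2 a3 b1 b2 b3 c1 c2 c3 ≤ 2 * r *
      exp (((a1 ^ 2 + a2 ^ 2 + a3 ^ 2) / 2 - 1 / 2 -
        1 / 48 * ((a1 - r) ^ 2 + (a2 - r) ^ 2 + (a3 - r) ^ 2)) +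
        ((b1 ^ 2 + b2 ^ 2 + b3 ^ 2) / 2 - 1 / 2 -
        1 / 48 * ((b1 - r) ^ 2 + (b2 - r) ^ 2 + (b3 - r) ^ 2)) +
        ((c1 ^ 2 + c2 ^ 2 + c3 ^ 2) / 2 - 1 / 2 -
        1 / 48 * ((c1 - r) ^ 2 + (c2 - r) ^ 2 + (c3 - r) ^ 2))) := by
  have k1 := per_sq_le b1 b2 b3 ha1 ha2 ha3 c1 c2 c3
  have k2 := per_sq_le a1 a2 a3 hb1 hb2 hb3 c1 c2 c3
  have k3 := per_sq_le a1 a2 a3 hc1 hc2 hc3 b1 b2 b3
  have e1 : per b1 b2 b3 a1 a2 a3 c1 c2 c3 = per a1 a2 a3 b1 b2 b3 c1 c2 c3 := by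
    unfold per; ring
  have e3 : per a1 a2 a3 c1 c2 c3 b1 b2 b3 = per a1 a2 a3 b1 b2 b3 c1 c2 c3 := by
    unfold per; ring
  rw [e1] at k1
  rw [e3] at k3
  have r1 := row_le ha1 ha2 ha3 hr hrr
  have r2 := row_le hb1 hb2 hb3 hr hrr
  have r3 := row_le hc1 hc2 hc3 hr hrr
  have hqa : 0 ≤ a1 ^ 2 + a2 ^ 2 + a3 ^ 2 := by positivity
  have hqb : 0 ≤ b1 ^ 2 + b2 ^ 2 + b3 ^ 2 := by positivity
  have hqc : 0 ≤ c1 ^ 2 + c2 ^ 2 + c3 ^ 2 := by positivity
  have hRa : 0 ≤ a1 ^ 2 + a2 ^ 2 + a3 ^ 2 + (a1 * a2 + a1 * a3 + a2 * a3) / 3 := by positivity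
  have hRb : 0 ≤ b1 ^ 2 + b2 ^ 2 + b3 ^ 2 + (b1 * b2 + b1 * b3 + b2 * b3) / 3 := by positivity
  have hRc : 0 ≤ c1 ^ 2 + c2 ^ 2 + c3 ^ 2 + (c1 * c2 + c1 * c3 + c2 * c3) / 3 := by positivity
  clear e1 e3
  generalize per a1 a2 a3 b1 b2 b3 c1 c2 c3 = p at *
  generalize (a1 ^ 2 + a2 ^ 2 + a3 ^ 2) / 2 - 1 / 2 -
        1 / 48 * ((a1 - r) ^ 2 + (a2 - r) ^ 2 + (a3 - r) ^ 2) = Ea at *
  generalize (b1 ^ 2 + b2 ^ 2 + b3 ^ 2) / 2 - 1 / 2 -
        1 / 48 * ((b1 - r) ^ 2 + (b2 - r) ^ 2 + (b3 - r) ^ 2) = Eb at *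
  generalize (c1 ^ 2 + c2 ^ 2 + c3 ^ 2) / 2 - 1 / 2 -
        1 / 48 * ((c1 - r) ^ 2 + (c2 - r) ^ 2 + (c3 - r) ^ 2) = Ec at *
  generalize a1 ^ 2 + a2 ^ 2 + a3 ^ 2 + (a1 * a2 + a1 * a3 + a2 * a3) / 3 = Ra at *
  generalize b1 ^ 2 + b2 ^ 2 + b3 ^ 2 + (b1 * b2 + b1 * b3 + b2 * b3) / 3 = Rb at *
  generalize c1 ^ 2 + c2 ^ 2 + c3 ^ 2 + (c1 * c2 + c1 * c3 + c2 * c3) / 3 = Rc at *
  generalize a1 ^ 2 + a2 ^ 2 + a3 ^ 2 = qa at *
  generalize b1 ^ 2 + b2 ^ 2 + b3 ^ 2 = qb at *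
  generalize c1 ^ 2 + c2 ^ 2 + c3 ^ 2 = qc at *
  apply le_of_pow_le_pow_left₀ (n := 6) (by norm_num) (by positivity)
  calc p ^ 6 = p ^ 2 * p ^ 2 * p ^ 2 := by ring
    _ ≤ (qb * (qc * Ra)) * (qa * (qc * Rb)) * (qa * (qb * Rc)) := by gcongr
    _ = (qa ^ 2 * Ra) * (qb ^ 2 * Rb) * (qc ^ 2 * Rc) := by ring
    _ ≤ (4 / 3 * exp (6 * Ea)) * (4 / 3 * exp (6 * Eb)) * (4 / 3 * exp (6 * Ec)) := by gcongr
    _ = _ := by
      rw [mul_pow, ← exp_nat_mul, show (2 * r) ^ 6 = 64 * (r ^ 2) ^ 3 by ring, hrr]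
      push_cast
      rw [mul_add, mul_add, exp_add, exp_add]; ring

end Pool.Agent.MP_c4b7b1_co

end

section

/-! Cauchy-Schwarz, unions of matchings, and the count of all bounded degree graphs. -/

namespace Pool.Agent.MP_c4b7b1_co

open Finset Real

lemma cauchy {α β : Type*} [DecidableEq β] (A : Finset α) (E : Finset β) (pr : α → β)
    (hpr : ∀ a ∈ A, pr a ∈ E) (w : α → ℝ) :
    (∑ a ∈ A, w a) ^ 2 ≤
      E.card * ∑ p ∈ (A ×ˢ A).filter (fun p => pr p.1 = pr p.2), w p.1 * w p.2 := by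
  rw [← sum_fiberwise_of_maps_to hpr]
  refine sq_sum_le_card_mul_sum_sq.trans (le_of_eq ?_)
  congr 1
  rw [← sum_fiberwise_of_maps_to (s := (A ×ˢ A).filter (fun p => pr p.1 = pr p.2)) (t := E)
    (g := fun p => pr p.1)]
  · apply sum_congr rfl
    intro b _
    rw [sq, sum_mul_sum, ← sum_product']
    apply sum_congr _ (fun _ _ => rfl)
    ext ⟨x, y⟩
    simp only [mem_product, mem_filter]
    constructor
    · rintro ⟨⟨h1, h2⟩, h3, h4⟩; exact ⟨⟨⟨h1, h3⟩, h2.trans h4.symm⟩, h2⟩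
    · rintro ⟨⟨⟨h1, h3⟩, h2⟩, h4⟩; exact ⟨⟨h1, h4⟩, h3, h2.symm.trans h4⟩
  · intro p hp
    exact hpr _ (mem_product.mp (mem_filter.mp hp).1).1

variable {L : Type} [Fintype L] [DecidableEq L] {V : Type} [Fintype V] [DecidableEq V]

lemma le_cnt {α : Type*} (X : Finset α) (g : α → L → SimpleGraph V) (hg : Set.InjOn g X)
    (T : Finset (L → ℕ)) (c : (L → ℕ) → ℝ) (hc : ∀ d, 0 ≤ c d) (w : α → ℝ)
    (hT : ∀ x ∈ X, ∀ v, (fun l => deg (g x l) v) ∈ T)
    (hw : ∀ x ∈ X, w x ≤ ∏ v, c (fun l => deg (g x l) v)) :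
    ∑ x ∈ X, w x ≤ cnt V T c := by
  classical
  refine (sum_le_sum hw).trans ?_
  rw [← sum_image (s := X) (g := g)
    (f := fun F : L → SimpleGraph V => ∏ v, c (fun l => deg (F l) v)) hg]
  unfold cnt
  apply sum_le_sum_of_subset_of_nonneg
  · intro F hF
    obtain ⟨x, hx, rfl⟩ := mem_image.mp hF
    simp only [mem_filter, mem_univ, true_and]
    exact hT x hx
  · intro F _ _
    exact prod_nonneg (fun _ _ => hc _)

omit [DecidableEq L] in
lemma fT_le_tbl {I : Type} [Fintype I] (S : Finset (L → ℕ)) {c : (L → ℕ) → ℝ}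
    (hc : ∀ d, 0 ≤ c d) (tbl : I → L → ℕ) (h : ∀ d ∈ S, ∃ i, tbl i = d)
    {y : L → ℝ} (hy : ∀ l, 0 ≤ y l) :
    fT S c y ≤ ∑ i, c (tbl i) * mono (tbl i) y := by
  classical
  unfold fT
  have h0 : ∀ d, 0 ≤ c d * mono d y := fun d => mul_nonneg (hc d) (mono_nonneg d hy)
  calc _ ≤ ∑ d ∈ univ.image tbl, c d * mono d y := by
        apply sum_le_sum_of_subset_of_nonneg _ (fun d _ _ => h0 d)
        intro d hd
        obtain ⟨i, hi⟩ := h d hd
        exact mem_image.mpr ⟨i, mem_univ _, hi⟩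
    _ ≤ _ := sum_image_le_of_nonneg (fun d _ => h0 d)

lemma Lv_mul (D D' : ℕ) (P P' β β' : ℝ) (n : ℕ) :
    Lv D P β n * Lv D' P' β' n = Lv (D + D') (P * P') (β + β') n := by
  unfold Lv
  rw [add_mul, add_mul, pow_add, mul_pow, exp_add]
  push_cast
  rw [show -(((D : ℝ) + D') * n) / 2 = -(D * n) / 2 + -(D' * n) / 2 by ring, exp_add]
  ring

/-- unions of `k` matchings -/
def UM : ℕ → SimpleGraph V → Prop
  | 0, G => G = ⊥
  | k + 1, G => ∃ G' M, UM k G' ∧ IsM M ∧ G = G' ⊔ M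

open Classical in
/-- the set of unions of `k` matchings -/
noncomputable def eset (V : Type) [Fintype V] [DecidableEq V] (k : ℕ) : Finset (SimpleGraph V) :=
  univ.filter (UM k)

lemma mem_eset {k : ℕ} {G : SimpleGraph V} : G ∈ eset V k ↔ UM k G := by simp [eset]

lemma UM.deg_le : ∀ {k : ℕ} {G : SimpleGraph V}, UM k G → ∀ v, deg G v ≤ k
  | 0, G, h, v => by rw [show G = ⊥ from h, deg_bot]
  | k + 1, G, ⟨G', M, h1, h2, h3⟩, v => by
    rw [h3]
    exact (deg_sup_le G' M v).trans (add_le_add (UM.deg_le h1 v) (h2 v))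

omit [DecidableEq V] in
lemma UM.col : ∀ {k : ℕ} {G : SimpleGraph V}, UM k G →
    ∃ c : Sym2 V → ℕ, (∀ e ∈ G.edgeSet, c e < k) ∧
      ∀ v x y, G.Adj v x → G.Adj v y → c s(v, x) = c s(v, y) → x = y
  | 0, G, h => by
    rw [show G = ⊥ from h]
    exact ⟨fun _ => 0, by simp, by simp⟩
  | k + 1, G, ⟨G', M, h1, h2, h3⟩ => by
    classical
    obtain ⟨c, hc1, hc2⟩ := UM.col h1
    refine ⟨fun e => if e ∈ G'.edgeSet then c e else k, fun e _ => ?_, fun v x y hx hy h => ?_⟩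
    · by_cases he : e ∈ G'.edgeSet
      · simp only [he, if_true]; exact (hc1 e he).trans (Nat.lt_succ_self k)
      · simp only [he, if_false]; exact Nat.lt_succ_self k
    · rw [h3] at hx hy
      simp only [SimpleGraph.mem_edgeSet] at h
      by_cases h4 : G'.Adj v x <;> by_cases h5 : G'.Adj v y
      · simp only [h4, h5, if_true] at h; exact hc2 v x y h4 h5 h
      · simp only [h4, h5, if_true, if_false] at h
        have := hc1 s(v, x) h4; omega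
      · simp only [h4, h5, if_true, if_false] at h
        have := hc1 s(v, y) h5; omega
      · exact deg_le_one.mp (h2 v) x y (hx.resolve_left h4) (hy.resolve_left h5)

omit [DecidableEq V] in
lemma UM.colorable {k : ℕ} {G : SimpleGraph V} (h : UM k G) : G.lineGraph.Colorable k := by
  obtain ⟨c, hc1, hc2⟩ := h.col
  refine ⟨SimpleGraph.Coloring.mk (fun e => ⟨c e.1, hc1 e.1 e.2⟩) ?_⟩
  rintro ⟨e, he⟩ ⟨f, hf⟩ hadj heq
  rw [SimpleGraph.lineGraph_adj_iff_exists] at hadj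
  obtain ⟨hne, v, hv1, hv2⟩ := hadj
  obtain ⟨x, rfl⟩ := Sym2.mem_iff_exists.mp hv1
  obtain ⟨y, rfl⟩ := Sym2.mem_iff_exists.mp hv2
  have := hc2 v x y he hf (by simpa using heq)
  subst this
  exact hne rfl

lemma deg_split {A B C : SimpleGraph V} (h : A ≤ B ⊔ C) (hd : Disjoint B C) (v : V) :
    deg A v = deg (A ⊓ B) v + deg (A ⊓ C) v := by
  rw [← deg_sup (hd.mono inf_le_right inf_le_right), ← inf_sup_left, inf_eq_left.mpr h]

theorem first_moment {ν : ℝ} (hν : 0 < ν) (D : ℕ) :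
    ∃ C : ℝ, 0 < C ∧ ∃ N : ℕ, ∀ n ≥ N, ∀ {α : Type} (S : Finset α) (H : α → SimpleGraph (Fin n))
      (w : α → ℝ), (∀ a ∈ S, ∀ v, deg (H a) v ≤ D) → (∀ a ∈ S, 0 ≤ w a) →
      (∑ a ∈ S, w a) * Lv 1 1 ν n ≤
        C * ∑ x ∈ S.sigma (fun a => mset (H a)), w x.1 * wt ν x.2 := by
  obtain ⟨C, hC, N, hN⟩ := avoid_lower hν D
  refine ⟨C, hC, N, fun n hn α S H w hH hw => ?_⟩
  rw [sum_sigma, sum_mul, mul_sum]
  apply sum_le_sum
  intro a ha
  simp only
  rw [← mul_sum, mul_left_comm]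
  exact mul_le_mul_of_nonneg_left (hN n hn (H a) (hH a ha)) (hw a ha)

/-- leading constant for degree `k` -/
noncomputable def PD (k : ℕ) : ℝ := √(k : ℝ) ^ k / k.factorial

lemma PD_pos {k : ℕ} (hk : 1 ≤ k) : 0 < PD k := by
  have : (0 : ℝ) < k := by exact_mod_cast hk
  unfold PD; positivity

open Classical in
/-- graphs of maximum degree at most `k` -/
noncomputable def bset (V : Type) [Fintype V] [DecidableEq V] (k : ℕ) : Finset (SimpleGraph V) :=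
  univ.filter (fun G => ∀ v, deg G v ≤ k)

lemma mem_bset {k : ℕ} {G : SimpleGraph V} : G ∈ bset V k ↔ ∀ v, deg G v ≤ k := by
  simp only [bset, mem_filter, mem_univ, true_and]

theorem bset_upper (k : ℕ) :
    ∃ C : ℝ, 0 < C ∧ ∀ n : ℕ, 1 ≤ n →
      ((bset (Fin n) (k + 1)).card : ℝ) ≤ C * Lv (k + 1) (PD (k + 1)) √((k + 1 : ℕ) : ℝ) n := by
  classical
  set T : Finset (Unit → ℕ) := (range (k + 2)).image (fun j _ => j) with hT
  have hmem : ∀ d : Unit → ℕ, d ∈ T ↔ d () ≤ k + 1 := by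
    intro d
    simp only [hT, mem_image, mem_range]
    constructor
    · rintro ⟨j, hj, rfl⟩; simp only; omega
    · intro h; exact ⟨d (), by omega, rfl⟩
  have hk : (0 : ℝ) < ((k + 1 : ℕ) : ℝ) := by positivity
  obtain ⟨s, hs⟩ : ∃ s, s = √((k + 1 : ℕ) : ℝ) := ⟨_, rfl⟩
  have hs0 : 0 < s := by rw [hs]; exact sqrt_pos.mpr hk
  have hss : s ^ 2 = ((k + 1 : ℕ) : ℝ) := by rw [hs]; exact sq_sqrt hk.le
  obtain ⟨C, hC, h⟩ := laplace T (fun _ => 1) (fun _ => zero_le_one) (k + 1)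
    (fun d hd => by simpa using (hmem d).mp hd) (fun _ => s) (fun _ => hs0.le)
    (by simpa using hss) (PD (k + 1)) s (1 / 8) (PD_pos (by omega)) (by norm_num) le_rfl
    (by
      refine (fT_le_tbl _ (fun _ => zero_le_one) (fun _ : Unit => fun _ : Unit => k) ?_
        (fun _ => hs0.le)).trans (le_of_eq ?_)
      · intro d hd
        refine ⟨(), ?_⟩
        have := (mem_filter.mp hd).2
        funext l
        simp only [univ_unique, sum_singleton] at this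
        exact (Nat.succ_injective this).symm
      · simp only [univ_unique, sum_singleton, mono, prod_singleton, one_mul, PD, ← hs,
          Nat.factorial_succ]
        rw [Nat.cast_mul, ← hss]
        field_simp
        ring)
    (by
      intro y hy
      refine (fT_le_tbl _ (fun _ => zero_le_one) (fun _ : Unit => fun _ : Unit => k + 1) ?_
        hy).trans ?_
      · intro d hd
        refine ⟨(), ?_⟩
        have := (mem_filter.mp hd).2
        funext l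
        simp only [univ_unique, sum_singleton] at this
        exact this.symm
      · simp only [univ_unique, sum_singleton, mono, prod_singleton, one_mul, PD]
        rw [div_mul_eq_mul_div]
        apply div_le_div_of_nonneg_right _ (by positivity)
        rw [hs]
        exact ineq_one (k + 1) (by omega) _ (hy _))
  refine ⟨C, hC, fun n hn => ?_⟩
  rw [← hs]
  refine le_trans ?_ (h n hn)
  rw [card_eq_sum_ones]
  push_cast
  apply le_cnt _ (fun G _ => G) _ T _ (fun _ => zero_le_one)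
  · intro G hG v
    rw [hmem]
    exact mem_bset.mp hG v
  · intro G _; simp
  · intro G _ H _ h
    exact congrFun h ()

end Pool.Agent.MP_c4b7b1_co

end
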